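import Mathlib

/-!
Farkas' lemma (algebraic proof by induction, after Bartl) and the consequence used for polyhedral
cones: if `T ≥ 0` on a polyhedral cone `K` and `P ≥ 0` on the face `K ∩ {T = 0}`, then
`P + c T ≥ 0` on `K` for some constant `c ≥ 0`.
-/

namespace TropProf

theorem farkas {V : Type*} [AddCommGroup V] [Module ℝ V] :
    ∀ (m : ℕ) (a : Fin m → (V →ₗ[ℝ] ℝ)) (b : V →ₗ[ℝ] ℝ),
      (∀ x, (∀ i, 0 ≤ a i x) → 0 ≤ b x) →
      ∃ u : Fin m → ℝ, (∀ i, 0 ≤ u i) ∧ b = ∑ i, u i • a i := by
  intro m
  induction m with
  | zero =>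
    intro a b h
    refine ⟨fun i => 0, fun i => le_rfl, ?_⟩
    have hb : ∀ x, b x = 0 := by
      intro x
      have h1 := h x (fun i => i.elim0)
      have h2 := h (-x) (fun i => i.elim0)
      rw [map_neg] at h2
      linarith
    ext x
    simp [hb x]
  | succ m ih =>
    intro a b h
    by_cases hc : ∀ x, (∀ i : Fin m, 0 ≤ a i.castSucc x) → 0 ≤ b x
    · obtain ⟨u, hu0, hu⟩ := ih (fun i => a i.castSucc) b hc
      refine ⟨Fin.snoc u 0, ?_, ?_⟩
      · intro i
        refine Fin.lastCases ?_ (fun j => ?_) i
        · simp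
        · simpa using hu0 j
      · rw [Fin.sum_univ_castSucc]
        simp only [Fin.snoc_castSucc, Fin.snoc_last, zero_smul, add_zero]
        exact hu
    · push Not at hc
      obtain ⟨x0, hx0, hbx0⟩ := hc
      -- the last functional is negative at x0
      have hl : a (Fin.last m) x0 < 0 := by
        by_contra hcon
        push Not at hcon
        have := h x0 (fun i => by
          refine Fin.lastCases ?_ (fun j => ?_) i
          · exact hcon
          · exact hx0 j)
        linarith
      set l := a (Fin.last m) with hldef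
      set s : ℝ := -(l x0) with hs
      have hspos : 0 < s := by rw [hs]; linarith
      -- modified functionals
      let a' : Fin m → (V →ₗ[ℝ] ℝ) := fun i => a i.castSucc + ((a i.castSucc x0) / s) • l
      let b' : V →ₗ[ℝ] ℝ := b + ((b x0) / s) • l
      have key : ∀ x, (∀ i, 0 ≤ a' i x) → 0 ≤ b' x := by
        intro x hx
        have hx' := h (x + ((l x) / s) • x0) (by
          intro i
          refine Fin.lastCases ?_ (fun j => ?_) i
          · rw [← hldef, map_add, map_smul, smul_eq_mul]
            have : l x + l x / s * l x0 = 0 := by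
              have : l x0 = -s := by rw [hs]; ring
              rw [this]
              field_simp
              ring
            rw [this]
          · have := hx j
            simp only [a', LinearMap.add_apply, LinearMap.smul_apply, smul_eq_mul] at this
            rw [map_add, map_smul, smul_eq_mul]
            calc (0:ℝ) ≤ _ := this
              _ = _ := by ring)
        simp only [b', LinearMap.add_apply, LinearMap.smul_apply, smul_eq_mul]
        rw [map_add, map_smul, smul_eq_mul] at hx'
        calc (0:ℝ) ≤ _ := hx'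
          _ = _ := by ring
      obtain ⟨u, hu0, hu⟩ := ih a' b' key
      refine ⟨Fin.snoc u ((∑ i, u i * (a i.castSucc x0) - b x0) / s), ?_, ?_⟩
      · intro i
        refine Fin.lastCases ?_ (fun j => ?_) i
        · simp only [Fin.snoc_last]
          apply div_nonneg _ hspos.le
          have : 0 ≤ ∑ i, u i * (a i.castSucc x0) :=
            Finset.sum_nonneg (fun i _ => mul_nonneg (hu0 i) (hx0 i))
          linarith
        · simpa using hu0 j
      · rw [Fin.sum_univ_castSucc]
        simp only [Fin.snoc_castSucc, Fin.snoc_last]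
        rw [← hldef]
        ext x
        have hx := congrArg (fun f : V →ₗ[ℝ] ℝ => f x) hu
        simp only [b', a', LinearMap.sum_apply, LinearMap.smul_apply,
          LinearMap.add_apply, smul_eq_mul] at hx
        simp only [mul_add, Finset.sum_add_distrib] at hx
        have e1 : ∑ i, u i * (a i.castSucc x0 / s * l x) = (∑ i, u i * (a i.castSucc x0)) / s * l x := by
          rw [Finset.sum_div, Finset.sum_mul]
          refine Finset.sum_congr rfl (fun i _ => by ring)
        rw [e1] at hx
        simp only [LinearMap.sum_apply, LinearMap.smul_apply,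
          LinearMap.add_apply, smul_eq_mul]
        have : b x = ∑ i, u i * a i.castSucc x + (∑ i, u i * (a i.castSucc x0)) / s * l x
            - b x0 / s * l x := by linarith
        rw [this]
        ring

/-- consequence for polyhedral cones -/
theorem poly_face {V : Type*} [AddCommGroup V] [Module ℝ V] {m : ℕ} (a : Fin m → (V →ₗ[ℝ] ℝ))
    (P T : V →ₗ[ℝ] ℝ)
    (hT : ∀ x, (∀ i, 0 ≤ a i x) → 0 ≤ T x)
    (hP : ∀ x, (∀ i, 0 ≤ a i x) → T x = 0 → 0 ≤ P x) :
    ∃ c : ℝ, 0 ≤ c ∧ ∀ x, (∀ i, 0 ≤ a i x) → 0 ≤ P x + c * T x := by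
  have h := farkas (m + 1) (Fin.snoc a (-T)) P (by
    intro x hx
    have h1 : ∀ i, 0 ≤ a i x := fun i => by simpa using hx i.castSucc
    have h2 : 0 ≤ -(T x) := by simpa using hx (Fin.last m)
    exact hP x h1 (le_antisymm (by linarith) (hT x h1)))
  obtain ⟨u, hu0, hu⟩ := h
  refine ⟨u (Fin.last m), hu0 _, ?_⟩
  intro x hx
  rw [hu, Fin.sum_univ_castSucc]
  simp only [Fin.snoc_castSucc, Fin.snoc_last, LinearMap.add_apply, LinearMap.sum_apply,
    LinearMap.smul_apply, smul_eq_mul, LinearMap.neg_apply]
  have : 0 ≤ ∑ i : Fin m, u i.castSucc * a i x :=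
    Finset.sum_nonneg (fun i _ => mul_nonneg (hu0 _) (hx i))
  linarith

end TropProf
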