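import Pool.Agent.TropProf.Ent

/-!
The conditionally independent coupling (copy lemma) and the infinite family of information
inequalities of Matus.
-/

open scoped Classical
open Finset

namespace TropProf

section coupling

variable {Ω₁ Ω₂ W : Type} [Fintype Ω₁] [Fintype Ω₂]

/-- fibre product -/
def FP (f₁ : Ω₁ → W) (f₂ : Ω₂ → W) : Type := {x : Ω₁ × Ω₂ // f₁ x.1 = f₂ x.2}

noncomputable instance instFintypeFP (f₁ : Ω₁ → W) (f₂ : Ω₂ → W) : Fintype (FP f₁ f₂) :=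
  inferInstanceAs (Fintype {x : Ω₁ × Ω₂ // f₁ x.1 = f₂ x.2})

/-- coupling weights on the fibre product -/
noncomputable def cpl (p₁ : Ω₁ → ℝ) (p₂ : Ω₂ → ℝ) (f₁ : Ω₁ → W) (f₂ : Ω₂ → W) (x : FP f₁ f₂) : ℝ :=
  p₁ x.1.1 * p₂ x.1.2 / mass p₂ (Setoid.ker f₂) x.1.2

variable {p₁ : Ω₁ → ℝ} {p₂ : Ω₂ → ℝ} {f₁ : Ω₁ → W} {f₂ : Ω₂ → W}

theorem sum_FP (g : Ω₁ → Ω₂ → ℝ) :
    ∑ x : FP f₁ f₂, g x.1.1 x.1.2 = ∑ u, ∑ ω, (if f₁ u = f₂ ω then g u ω else 0) := by
  rw [← Finset.sum_product', Finset.univ_product_univ, ← Finset.sum_filter]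
  rw [← Finset.sum_subtype_eq_sum_filter]
  rw [Finset.subtype_univ]
  rfl

theorem mass_ker (ω : Ω₂) : mass p₂ (Setoid.ker f₂) ω = ∑ ω', if f₂ ω' = f₂ ω then p₂ ω' else 0 := rfl

/-- second marginal -/
theorem cpl_snd (h2 : IsProb p₂)
    (hm : ∀ w, push p₁ f₁ w = push p₂ f₂ w) (ω : Ω₂) :
    ∑ x : FP f₁ f₂, (if x.1.2 = ω then cpl p₁ p₂ f₁ f₂ x else 0) = p₂ ω := by
  have := sum_FP (f₁ := f₁) (f₂ := f₂) (fun u ω' => if ω' = ω then
    p₁ u * p₂ ω' / mass p₂ (Setoid.ker f₂) ω' else 0)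
  unfold cpl
  rw [this]
  have h3 : ∀ u, ∑ ω', (if f₁ u = f₂ ω' then (if ω' = ω then
    p₁ u * p₂ ω' / mass p₂ (Setoid.ker f₂) ω' else 0) else 0) =
    (if f₁ u = f₂ ω then p₁ u else 0) * (p₂ ω / mass p₂ (Setoid.ker f₂) ω) := by
    intro u
    rw [Finset.sum_eq_single ω]
    · simp only [if_true]
      split_ifs
      · ring
      · simp
    · intro b _ hb
      simp [hb]
    · simp
  have hm2 := hm (f₂ ω)
  unfold push at hm2
  rw [Finset.sum_congr rfl (fun u _ => h3 u), ← Finset.sum_mul, hm2, ← mass_ker]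
  rcases (h2.nonneg ω).eq_or_lt with h0 | h0
  · simp [← h0]
  · have := mass_pos h2.nonneg (Setoid.ker f₂) h0
    field_simp

/-- first marginal -/
theorem cpl_fst (h1 : IsProb p₁) (h2 : IsProb p₂)
    (hm : ∀ w, push p₁ f₁ w = push p₂ f₂ w) (u : Ω₁) :
    ∑ x : FP f₁ f₂, (if x.1.1 = u then cpl p₁ p₂ f₁ f₂ x else 0) = p₁ u := by
  have := sum_FP (f₁ := f₁) (f₂ := f₂) (fun u' ω' => if u' = u then
    p₁ u' * p₂ ω' / mass p₂ (Setoid.ker f₂) ω' else 0)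
  unfold cpl
  rw [this, Finset.sum_eq_single u]
  · simp only [if_true]
    by_cases hex : ∃ ω, f₁ u = f₂ ω
    · obtain ⟨ω0, h0⟩ := hex
      have h3 : ∀ ω, (if f₁ u = f₂ ω then p₁ u * p₂ ω / mass p₂ (Setoid.ker f₂) ω else 0)
          = p₁ u * ((if f₂ ω = f₂ ω0 then p₂ ω else 0) / mass p₂ (Setoid.ker f₂) ω0) := by
        intro ω
        by_cases h4 : f₂ ω = f₂ ω0
        · have h5 : f₁ u = f₂ ω := by rw [h0, h4]
          rw [if_pos h5, if_pos h4]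
          have : mass p₂ (Setoid.ker f₂) ω = mass p₂ (Setoid.ker f₂) ω0 := mass_congr _ h4
          rw [this]; ring
        · have h5 : ¬ f₁ u = f₂ ω := by rw [h0]; exact fun h => h4 h.symm
          rw [if_neg h5, if_neg h4]; simp
      rw [Finset.sum_congr rfl (fun ω _ => h3 ω), ← Finset.mul_sum, ← Finset.sum_div, ← mass_ker]
      rcases (mass_nonneg h2.nonneg (Setoid.ker f₂) ω0).eq_or_lt with h6 | h6
      · have h7 : p₁ u = 0 := by
          have h8 := hm (f₂ ω0)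
          unfold push at h8
          rw [← mass_ker, ← h6] at h8
          have h9 := (Finset.sum_eq_zero_iff_of_nonneg (fun i _ => by
            split_ifs <;> simp [h1.nonneg])).mp h8 u (Finset.mem_univ _)
          simpa [h0] using h9
        simp [h7]
      · rw [div_self h6.ne', mul_one]
    · have h3 : ∑ ω, (if f₁ u = f₂ ω then p₁ u * p₂ ω / mass p₂ (Setoid.ker f₂) ω else 0) = 0 :=
        Finset.sum_eq_zero (fun ω _ => by rw [if_neg (fun h => hex ⟨ω, h⟩)])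
      rw [h3]
      have h8 := hm (f₁ u)
      unfold push at h8
      rw [Finset.sum_eq_zero (s := univ) (f := fun ω => if f₂ ω = f₁ u then p₂ ω else 0)
        (fun ω _ => by rw [if_neg (fun h => hex ⟨ω, h.symm⟩)])] at h8
      have h9 := (Finset.sum_eq_zero_iff_of_nonneg (fun i _ => by
            split_ifs <;> simp [h1.nonneg])).mp h8 u (Finset.mem_univ _)
      simpa using h9.symm
  · intro b _ hb
    simp [hb]
  · simp

theorem cpl_prob (h1 : IsProb p₁) (h2 : IsProb p₂)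
    (hm : ∀ w, push p₁ f₁ w = push p₂ f₂ w) :
    IsProb (cpl p₁ p₂ f₁ f₂) := by
  constructor
  · intro x
    exact div_nonneg (mul_nonneg (h1.nonneg _) (h2.nonneg _)) (mass_nonneg h2.nonneg _ _)
  · have h3 : ∑ x : FP f₁ f₂, cpl p₁ p₂ f₁ f₂ x
        = ∑ ω, ∑ x : FP f₁ f₂, (if x.1.2 = ω then cpl p₁ p₂ f₁ f₂ x else 0) := by
      rw [Finset.sum_comm]
      refine Finset.sum_congr rfl (fun x _ => ?_)
      rw [Finset.sum_ite_eq]; simp
    rw [h3, Finset.sum_congr rfl (fun ω _ => cpl_snd h2 hm ω), h2.sum_one]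

/-- the joint mass factorises -/
theorem mass_cpl {F : Setoid Ω₁} {E : Setoid Ω₂}
    (hF : F ≤ Setoid.ker f₁) (hE : E ≤ Setoid.ker f₂) (x : FP f₁ f₂) :
    mass (cpl p₁ p₂ f₁ f₂) (F.comap (fun y : FP f₁ f₂ => y.1.1) ⊓ E.comap (fun y => y.1.2)) x
      = mass p₁ F x.1.1 * mass p₂ E x.1.2 / mass p₂ (Setoid.ker f₂) x.1.2 := by
  unfold mass cpl
  have := sum_FP (f₁ := f₁) (f₂ := f₂) (fun u ω => if F u x.1.1 ∧ E ω x.1.2 then
    p₁ u * p₂ ω / mass p₂ (Setoid.ker f₂) ω else 0)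
  have h0 : ∀ y : FP f₁ f₂, ((F.comap (fun y : FP f₁ f₂ => y.1.1) ⊓
      E.comap (fun y : FP f₁ f₂ => y.1.2)) y x) ↔ (F y.1.1 x.1.1 ∧ E y.1.2 x.1.2) := fun y => Iff.rfl
  simp only [h0]
  rw [this, Finset.sum_mul_sum, Finset.sum_div]
  refine Finset.sum_congr rfl (fun u _ => ?_)
  rw [Finset.sum_div]
  refine Finset.sum_congr rfl (fun ω _ => ?_)
  by_cases h1 : F u x.1.1
  · by_cases h2 : E ω x.1.2
    · have e1 : f₁ u = f₁ x.1.1 := hF h1
      have e2 : f₂ ω = f₂ x.1.2 := hE h2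
      have e3 : f₁ u = f₂ ω := by rw [e1, e2]; exact x.2
      rw [if_pos e3, if_pos ⟨h1, h2⟩, if_pos h1, if_pos h2]
      have e4 : mass p₂ (Setoid.ker f₂) ω = mass p₂ (Setoid.ker f₂) x.1.2 := mass_congr _ e2
      rw [e4]
      rfl
    · simp [h2]
  · simp [h1]

/-- conditional independence -/
theorem ent_cpl (h1 : IsProb p₁) (h2 : IsProb p₂)
    (hm : ∀ w, push p₁ f₁ w = push p₂ f₂ w)
    {F : Setoid Ω₁} {E : Setoid Ω₂}
    (hF : F ≤ Setoid.ker f₁) (hE : E ≤ Setoid.ker f₂) :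
    ent (cpl p₁ p₂ f₁ f₂) (F.comap (fun y : FP f₁ f₂ => y.1.1) ⊓ E.comap (fun y => y.1.2))
      = ent p₁ F + ent p₂ E - ent p₂ (Setoid.ker f₂) := by
  have hq := cpl_prob h1 h2 hm
  rw [← ent_comap p₁ (cpl p₁ p₂ f₁ f₂) (fun y : FP f₁ f₂ => y.1.1) (cpl_fst h1 h2 hm) F,
    ← ent_comap p₂ (cpl p₁ p₂ f₁ f₂) (fun y : FP f₁ f₂ => y.1.2) (cpl_snd h2 hm) E,
    ← ent_comap p₂ (cpl p₁ p₂ f₁ f₂) (fun y : FP f₁ f₂ => y.1.2) (cpl_snd h2 hm) (Setoid.ker f₂)]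
  have hm1 : ∀ x, mass (cpl p₁ p₂ f₁ f₂) (F.comap (fun y : FP f₁ f₂ => y.1.1)) x = mass p₁ F x.1.1 := by
    intro x
    unfold mass
    simp only [Setoid.comap_rel]
    calc ∑ y : FP f₁ f₂, (if F y.1.1 x.1.1 then cpl p₁ p₂ f₁ f₂ y else 0)
        = ∑ y : FP f₁ f₂, ∑ u, (if y.1.1 = u then (if F u x.1.1 then cpl p₁ p₂ f₁ f₂ y else 0) else 0) := by
          refine Finset.sum_congr rfl (fun y _ => ?_)
          rw [Finset.sum_ite_eq]
          simp
      _ = ∑ u, ∑ y : FP f₁ f₂, (if y.1.1 = u then (if F u x.1.1 then cpl p₁ p₂ f₁ f₂ y else 0) else 0) :=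
          Finset.sum_comm
      _ = ∑ u, (if F u x.1.1 then p₁ u else 0) := by
          refine Finset.sum_congr rfl (fun u _ => ?_)
          split_ifs with h
          · exact cpl_fst h1 h2 hm u
          · simp
  have hm2 : ∀ (E : Setoid Ω₂) (x : FP f₁ f₂),
      mass (cpl p₁ p₂ f₁ f₂) (E.comap (fun y : FP f₁ f₂ => y.1.2)) x = mass p₂ E x.1.2 := by
    intro E x
    unfold mass
    simp only [Setoid.comap_rel]
    calc ∑ y : FP f₁ f₂, (if E y.1.2 x.1.2 then cpl p₁ p₂ f₁ f₂ y else 0)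
        = ∑ y : FP f₁ f₂, ∑ u, (if y.1.2 = u then (if E u x.1.2 then cpl p₁ p₂ f₁ f₂ y else 0) else 0) := by
          refine Finset.sum_congr rfl (fun y _ => ?_)
          rw [Finset.sum_ite_eq]
          simp
      _ = ∑ u, ∑ y : FP f₁ f₂, (if y.1.2 = u then (if E u x.1.2 then cpl p₁ p₂ f₁ f₂ y else 0) else 0) :=
          Finset.sum_comm
      _ = ∑ u, (if E u x.1.2 then p₂ u else 0) := by
          refine Finset.sum_congr rfl (fun u _ => ?_)
          split_ifs with h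
          · exact cpl_snd h2 hm u
          · simp
  unfold ent
  have h3 : ∀ x, cpl p₁ p₂ f₁ f₂ x * Real.log (mass (cpl p₁ p₂ f₁ f₂)
      (F.comap (fun y : FP f₁ f₂ => y.1.1) ⊓ E.comap (fun y => y.1.2)) x)
      = cpl p₁ p₂ f₁ f₂ x * Real.log (mass (cpl p₁ p₂ f₁ f₂) (F.comap (fun y : FP f₁ f₂ => y.1.1)) x)
      + cpl p₁ p₂ f₁ f₂ x * Real.log (mass (cpl p₁ p₂ f₁ f₂) (E.comap (fun y : FP f₁ f₂ => y.1.2)) x)
      - cpl p₁ p₂ f₁ f₂ x * Real.log (mass (cpl p₁ p₂ f₁ f₂)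
        ((Setoid.ker f₂).comap (fun y : FP f₁ f₂ => y.1.2)) x) := by
    intro x
    rcases (hq.nonneg x).eq_or_lt with h0 | h0
    · simp [← h0]
    · have a1 := mass_pos hq.nonneg (F.comap (fun y : FP f₁ f₂ => y.1.1)) h0
      have a2 := mass_pos hq.nonneg (E.comap (fun y : FP f₁ f₂ => y.1.2)) h0
      have a3 := mass_pos hq.nonneg ((Setoid.ker f₂).comap (fun y : FP f₁ f₂ => y.1.2)) h0
      rw [mass_cpl hF hE x, ← hm1, ← hm2 E, ← hm2 (Setoid.ker f₂),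
        Real.log_div (mul_pos a1 a2).ne' a3.ne', Real.log_mul a1.ne' a2.ne']
      ring
  rw [Finset.sum_congr rfl (fun x _ => h3 x), Finset.sum_sub_distrib, Finset.sum_add_distrib]
  ring

end coupling

end TropProf
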