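import Pool.Agent.TropProf.Path2
import Pool.Agent.TropProf.Farkas

/-!
Homomorphism densities of the twelve graphs and the linear functionals.
-/

open scoped Classical
open Finset

namespace TropProf

/-- number of vertices of the `i`-th graph -/
noncomputable def vv (i : Fin 12) : ℝ := (Nat.card (GV (Fin 8) (gs i)) : ℝ)

theorem card_gs (i : Fin 12) (j : Fin (nc i)) : (gs i j).card = (Sset (st i j)).card :=
  Finset.card_image_of_injective _ sp_inj

theorem Sset_card_le (s : Fin 10) : (Sset s).card ≤ 8 :=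
  (Finset.card_le_univ _).trans (by simp)

theorem vv_eq (i : Fin 12) : vv i = 8 + ∑ j : Fin (nc i), (8 - ((Sset (st i j)).card : ℝ)) := by
  unfold vv
  rw [card_GV]
  push_cast
  simp only [Fintype.card_fin]
  congr 1
  refine Finset.sum_congr rfl (fun j _ => ?_)
  rw [card_gs, Nat.cast_sub (Sset_card_le _)]
  norm_num

theorem vv_zero : vv 0 = 8 := by
  rw [vv_eq]
  have h : nc 0 = 0 := rfl
  rw [Finset.sum_eq_zero]
  · norm_num
  · intro j _
    exact absurd (lt_of_lt_of_eq j.isLt h) (Nat.not_lt_zero _)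

theorem vv_one : vv 1 = 8 + ∑ s : Fin 10, (8 - ((Sset s).card : ℝ)) := by
  rw [vv_eq]
  congr 1

theorem vv_pw (s : Fin 10) : vv (pw s) = 8 + KK s * (8 - ((Sset s).card : ℝ)) := by
  rw [vv_eq]
  have h1 : ∀ j, st (pw s) j = s := by
    intro j
    unfold st pw
    have : ¬ ((⟨s.val + 2, by omega⟩ : Fin 12) = 1) := by
      intro h
      have := congrArg Fin.val h
      simp at this
    rw [if_neg this]
    simp
  simp only [h1, Finset.sum_const, Finset.card_univ, Fintype.card_fin, nsmul_eq_mul]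
  congr 2
  unfold nc pw KK
  have : ¬ ((⟨s.val + 2, by omega⟩ : Fin 12) = 1) := by
    intro h
    have := congrArg Fin.val h
    simp at this
  have h0 : ¬ ((⟨s.val + 2, by omega⟩ : Fin 12) = 0) := by
    intro h
    have := congrArg Fin.val h
    simp at this
  rw [if_neg h0, if_neg this]
  norm_cast
  show 48 + (s.val + 2) = _
  omega

theorem hL_vv (s : Fin 10) : hL s vv = (Sset s).card := by
  rw [hL_apply, vv_zero, vv_pw]
  have : (KK s : ℝ) ≠ 0 := by exact_mod_cast (KK_pos s).ne'
  field_simp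
  ring

theorem JL_vv : JL vv = 0 := by
  rw [JL_apply, vv_zero, vv_one]
  have : ∀ s, vv (pw s) / KK s = 8 * (1 / (KK s : ℝ)) + (8 - ((Sset s).card : ℝ)) := by
    intro s
    rw [vv_pw]
    have : (KK s : ℝ) ≠ 0 := by exact_mod_cast (KK_pos s).ne'
    field_simp
  simp only [this, Finset.sum_add_distrib, ← Finset.mul_sum]
  ring

theorem card_Sset_vals : (fun s => ((Sset s).card : ℝ)) = ![1, 1, 2, 2, 2, 2, 2, 2, 3, 3] := by
  funext s
  fin_cases s <;> simp [Sset]

theorem lin_vv (c : Fin 10 → ℝ) : lin c vv = ∑ s, c s * (![1, 1, 2, 2, 2, 2, 2, 2, 3, 3] : Fin 10 → ℝ) s := by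
  rw [lin_apply]
  refine Finset.sum_congr rfl (fun s _ => ?_)
  rw [hL_vv, ← card_Sset_vals]

theorem lin_cP_vv : lin cP vv = 0 := by
  rw [lin_vv]
  simp [cP, Fin.sum_univ_succ]
  norm_num

theorem lin_cT_vv : lin cT vv = 0 := by
  rw [lin_vv]
  simp [cT, Fin.sum_univ_succ]
  norm_num

theorem lin_cQ_vv : lin cQ vv = 0 := by
  rw [lin_vv]
  simp [cQ, Fin.sum_univ_succ]
  norm_num

theorem vv_vals : vv = fun i => (((![8, 68, 358, 365, 320, 326, 332, 338, 344, 350, 298, 303] :
    Fin 12 → ℕ) i : ℕ) : ℝ) := by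
  have hc : ∀ s, ((Sset s).card : ℝ) = (![1, 1, 2, 2, 2, 2, 2, 2, 3, 3] : Fin 10 → ℝ) s :=
    fun s => congrFun card_Sset_vals s
  have key : ∀ s : Fin 10, vv (pw s) = 8 + KK s * (8 - (![1, 1, 2, 2, 2, 2, 2, 2, 3, 3] : Fin 10 → ℝ) s) := by
    intro s
    rw [vv_pw, hc]
  have k0 : vv (pw 0) = 358 := by rw [key]; simp [KK]; norm_num
  have k1 : vv (pw 1) = 365 := by rw [key]; simp [KK]; norm_num
  have k2 : vv (pw 2) = 320 := by rw [key]; simp [KK]; norm_num
  have k3 : vv (pw 3) = 326 := by rw [key]; simp [KK]; norm_num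
  have k4 : vv (pw 4) = 332 := by rw [key]; simp [KK]; norm_num
  have k5 : vv (pw 5) = 338 := by rw [key]; simp [KK]; norm_num
  have k6 : vv (pw 6) = 344 := by rw [key]; simp [KK]; norm_num
  have k7 : vv (pw 7) = 350 := by rw [key]; simp [KK]; norm_num
  have k8 : vv (pw 8) = 298 := by rw [key]; simp [KK]; norm_num
  have k9 : vv (pw 9) = 303 := by rw [key]; simp [KK]; norm_num
  have k : vv 1 = 68 := by
    rw [vv_one]
    simp only [hc]
    simp [Fin.sum_univ_succ]
    norm_num
  funext i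
  fin_cases i
  · exact vv_zero
  · exact k
  · exact k0
  · exact k1
  · exact k2
  · exact k3
  · exact k4
  · exact k5
  · exact k6
  · exact k7
  · exact k8
  · exact k9

end TropProf

namespace TropProf

theorem vals_inj : Function.Injective (![8, 68, 358, 365, 320, 326, 332, 338, 344, 350, 298, 303] :
    Fin 12 → ℕ) := by
  decide

end TropProf

namespace TropProf

/-- sizes are pairwise different -/
theorem vv_inj : Function.Injective vv := by
  rw [vv_vals]
  intro i j h
  exact vals_inj (Nat.cast_injective h)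

end TropProf
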