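import Mathlib

/-!
Shannon entropy of finite random variables.  A random variable on a finite probability space is
represented by the equivalence relation (setoid) it induces; the joint variable is the infimum of
setoids.
-/

open scoped Classical
open Finset

namespace TropProf

/-- the total weight of the class of `ω` -/
noncomputable def mass {Ω : Type*} [Fintype Ω] (p : Ω → ℝ) (E : Setoid Ω) (ω : Ω) : ℝ :=
  ∑ ω' : Ω, if E ω' ω then p ω' else 0

/-- Shannon entropy (in nats) of the partition into classes of `E` -/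
noncomputable def ent {Ω : Type*} [Fintype Ω] (p : Ω → ℝ) (E : Setoid Ω) : ℝ :=
  -∑ ω : Ω, p ω * Real.log (mass p E ω)

/-- push-forward of the weights `p` along `f` -/
noncomputable def push {Ω W : Type*} [Fintype Ω] (p : Ω → ℝ) (f : Ω → W) (w : W) : ℝ :=
  ∑ u, if f u = w then p u else 0

structure IsProb {Ω : Type*} [Fintype Ω] (p : Ω → ℝ) : Prop where
  nonneg : ∀ ω, 0 ≤ p ω
  sum_one : ∑ ω, p ω = 1

section
variable {Ω : Type*} [Fintype Ω] {p : Ω → ℝ}

theorem mass_nonneg (hp : ∀ ω, 0 ≤ p ω) (E : Setoid Ω) (ω : Ω) : 0 ≤ mass p E ω :=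
  Finset.sum_nonneg (fun i _ => by split_ifs <;> simp [hp])

theorem le_mass (hp : ∀ ω, 0 ≤ p ω) (E : Setoid Ω) (ω : Ω) : p ω ≤ mass p E ω := by
  have h := Finset.single_le_sum (f := fun ω' => if E ω' ω then p ω' else 0)
    (fun i _ => by split_ifs <;> simp [hp]) (Finset.mem_univ ω)
  unfold mass
  simpa [E.refl ω] using h

theorem mass_pos (hp : ∀ ω, 0 ≤ p ω) (E : Setoid Ω) {ω : Ω} (h : 0 < p ω) : 0 < mass p E ω :=
  lt_of_lt_of_le h (le_mass hp E ω)

theorem mass_congr (E : Setoid Ω) {ω ω' : Ω} (h : E ω ω') : mass p E ω = mass p E ω' := by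
  unfold mass
  refine Finset.sum_congr rfl (fun i _ => ?_)
  have : E i ω ↔ E i ω' := ⟨fun h1 => E.trans h1 h, fun h1 => E.trans h1 (E.symm h)⟩
  simp only [this]

theorem mass_mono (hp : ∀ ω, 0 ≤ p ω) {E F : Setoid Ω} (h : E ≤ F) (ω : Ω) :
    mass p E ω ≤ mass p F ω := by
  unfold mass
  refine Finset.sum_le_sum (fun i _ => ?_)
  by_cases h1 : E i ω
  · have : F i ω := h h1
    simp [h1, this]
  · simp only [h1, if_false]
    split_ifs <;> simp [hp]

theorem mass_top : mass p ⊤ = fun _ => ∑ ω, p ω := by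
  funext ω
  unfold mass
  refine Finset.sum_congr rfl (fun i _ => ?_)
  simp [Setoid.top_def]

theorem mass_bot (ω : Ω) : mass p ⊥ ω = p ω := by
  unfold mass
  rw [Finset.sum_eq_single ω]
  · simp
  · intro b _ hb
    simp [hb]
  · simp

theorem ent_mono (hp : IsProb p) {E F : Setoid Ω} (h : E ≤ F) : ent p F ≤ ent p E := by
  unfold ent
  apply neg_le_neg
  refine Finset.sum_le_sum (fun ω _ => ?_)
  rcases (hp.nonneg ω).eq_or_lt with h0 | h0
  · simp [← h0]
  · exact mul_le_mul_of_nonneg_left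
      (Real.log_le_log (mass_pos hp.nonneg E h0) (mass_mono hp.nonneg h ω)) (hp.nonneg ω)

/-- the double counting bound behind submodularity -/
theorem submod_aux (hp : IsProb p) {E F Z : Setoid Ω} (hE : E ≤ Z) (hF : F ≤ Z) :
    ∑ ω, p ω * (mass p E ω * mass p F ω / (mass p (E ⊓ F) ω * mass p Z ω)) ≤ 1 := by
  have h1 : ∀ ω, p ω * (mass p E ω * mass p F ω / (mass p (E ⊓ F) ω * mass p Z ω))
      = ∑ ω', ∑ ω'', (if E ω' ω ∧ F ω'' ω then
          p ω' * p ω'' * (p ω / (mass p (E ⊓ F) ω * mass p Z ω)) else 0) := by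
    intro ω
    have : mass p E ω * mass p F ω = ∑ ω', ∑ ω'', (if E ω' ω ∧ F ω'' ω then p ω' * p ω'' else 0) := by
      unfold mass
      rw [Finset.sum_mul_sum]
      refine Finset.sum_congr rfl (fun i _ => Finset.sum_congr rfl (fun j _ => ?_))
      by_cases h1 : E i ω <;> by_cases h2 : F j ω <;> simp [h1, h2]
    rw [this, Finset.sum_div, Finset.mul_sum]
    refine Finset.sum_congr rfl (fun i _ => ?_)
    rw [Finset.sum_div, Finset.mul_sum]
    refine Finset.sum_congr rfl (fun j _ => ?_)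
    split_ifs
    · ring
    · simp
  rw [Finset.sum_congr rfl (fun ω _ => h1 ω)]
  rw [Finset.sum_comm]
  have h2 : ∀ ω', ∑ ω, ∑ ω'', (if E ω' ω ∧ F ω'' ω then
          p ω' * p ω'' * (p ω / (mass p (E ⊓ F) ω * mass p Z ω)) else 0)
      ≤ ∑ ω'', (if Z ω'' ω' then p ω' * p ω'' / mass p Z ω' else 0) := by
    intro ω'
    rw [Finset.sum_comm]
    refine Finset.sum_le_sum (fun ω'' _ => ?_)
    by_cases hex : ∃ ω0, E ω' ω0 ∧ F ω'' ω0
    · obtain ⟨ω0, h3, h4⟩ := hex
      have hZ : Z ω'' ω' := Z.trans (hF h4) (Z.symm (hE h3))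
      rw [if_pos hZ]
      have h5 : ∀ ω, (if E ω' ω ∧ F ω'' ω then
          p ω' * p ω'' * (p ω / (mass p (E ⊓ F) ω * mass p Z ω)) else 0)
          = (p ω' * p ω'' / mass p Z ω') * ((if (E ⊓ F) ω ω0 then p ω else 0) / mass p (E ⊓ F) ω0) := by
        intro ω
        have hiff : (E ω' ω ∧ F ω'' ω) ↔ (E ⊓ F) ω ω0 := by
          constructor
          · rintro ⟨h6, h7⟩
            exact ⟨E.trans (E.symm h6) h3, F.trans (F.symm h7) h4⟩
          · rintro ⟨h6, h7⟩
            exact ⟨E.trans h3 (E.symm h6), F.trans h4 (F.symm h7)⟩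
        by_cases h6 : (E ⊓ F) ω ω0
        · have h7 := hiff.mpr h6
          rw [if_pos h7, if_pos h6]
          have e1 : mass p Z ω = mass p Z ω' := mass_congr Z (Z.symm (hE h7.1))
          have e2 : mass p (E ⊓ F) ω = mass p (E ⊓ F) ω0 := mass_congr _ h6
          rw [e1, e2, div_mul_div_comm, mul_div_assoc', mul_comm (mass p Z ω')]
        · rw [if_neg h6, if_neg (fun h => h6 (hiff.mp h))]
          simp
      rw [Finset.sum_congr rfl (fun ω _ => h5 ω), ← Finset.mul_sum, ← Finset.sum_div]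
      have h8 : (∑ ω, if (E ⊓ F) ω ω0 then p ω else 0) / mass p (E ⊓ F) ω0 ≤ 1 := div_self_le_one _
      have h9 : 0 ≤ p ω' * p ω'' / mass p Z ω' :=
        div_nonneg (mul_nonneg (hp.nonneg _) (hp.nonneg _)) (mass_nonneg hp.nonneg _ _)
      calc _ ≤ (p ω' * p ω'' / mass p Z ω') * 1 := mul_le_mul_of_nonneg_left h8 h9
        _ = _ := mul_one _
    · have h3 : ∑ ω, (if E ω' ω ∧ F ω'' ω then
          p ω' * p ω'' * (p ω / (mass p (E ⊓ F) ω * mass p Z ω)) else 0) = 0 := by
        refine Finset.sum_eq_zero (fun ω _ => ?_)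
        rw [if_neg (fun h => hex ⟨ω, h⟩)]
      rw [h3]
      split_ifs
      · exact div_nonneg (mul_nonneg (hp.nonneg _) (hp.nonneg _)) (mass_nonneg hp.nonneg _ _)
      · exact le_rfl
  refine (Finset.sum_le_sum (fun ω' _ => h2 ω')).trans ?_
  have h3 : ∀ ω', ∑ ω'', (if Z ω'' ω' then p ω' * p ω'' / mass p Z ω' else 0) ≤ p ω' := by
    intro ω'
    have : ∑ ω'', (if Z ω'' ω' then p ω' * p ω'' / mass p Z ω' else 0)
        = p ω' * (mass p Z ω' / mass p Z ω') := by
      unfold mass
      rw [Finset.sum_div, Finset.mul_sum]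
      refine Finset.sum_congr rfl (fun j _ => ?_)
      split_ifs
      · ring
      · simp
    rw [this]
    calc _ ≤ p ω' * 1 := mul_le_mul_of_nonneg_left (div_self_le_one _) (hp.nonneg _)
      _ = _ := mul_one _
  calc _ ≤ ∑ ω', p ω' := Finset.sum_le_sum (fun ω' _ => h3 ω')
    _ = 1 := hp.sum_one

/-- submodularity of entropy -/
theorem submod (hp : IsProb p) {E F Z : Setoid Ω} (hE : E ≤ Z) (hF : F ≤ Z) :
    ent p (E ⊓ F) + ent p Z ≤ ent p E + ent p F := by
  have h := submod_aux hp hE hF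
  have h1 : ∀ ω, p ω * (1 - (mass p E ω * mass p F ω / (mass p (E ⊓ F) ω * mass p Z ω)))
      ≤ p ω * (Real.log (mass p (E ⊓ F) ω) + Real.log (mass p Z ω) - Real.log (mass p E ω)
        - Real.log (mass p F ω)) := by
    intro ω
    rcases (hp.nonneg ω).eq_or_lt with h0 | h0
    · simp [← h0]
    · apply mul_le_mul_of_nonneg_left _ (hp.nonneg ω)
      have a1 := mass_pos hp.nonneg E h0
      have a2 := mass_pos hp.nonneg F h0
      have a3 := mass_pos hp.nonneg (E ⊓ F) h0
      have a4 := mass_pos hp.nonneg Z h0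
      have h2 := Real.log_le_sub_one_of_pos (div_pos (mul_pos a1 a2) (mul_pos a3 a4))
      rw [Real.log_div (mul_pos a1 a2).ne' (mul_pos a3 a4).ne', Real.log_mul a1.ne' a2.ne',
        Real.log_mul a3.ne' a4.ne'] at h2
      linarith
  have h2 := Finset.sum_le_sum (fun ω (_ : ω ∈ (Finset.univ : Finset Ω)) => h1 ω)
  simp only [mul_sub, mul_add, Finset.sum_sub_distrib, Finset.sum_add_distrib, mul_one] at h2
  rw [hp.sum_one] at h2
  unfold ent
  linarith

end

/-- pushing forward along a map does not change entropies of pulled back variables -/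
theorem ent_comap {Ω Ω' : Type*} [Fintype Ω] [Fintype Ω'] (p : Ω → ℝ) (p' : Ω' → ℝ) (π : Ω' → Ω)
    (hπ : ∀ ω, ∑ x, (if π x = ω then p' x else 0) = p ω) (E : Setoid Ω) :
    ent p' (E.comap π) = ent p E := by
  have hm : ∀ x, mass p' (E.comap π) x = mass p E (π x) := by
    intro x
    unfold mass
    simp only [Setoid.comap_rel]
    calc ∑ y, (if E (π y) (π x) then p' y else 0)
        = ∑ y, ∑ ω, (if π y = ω then (if E ω (π x) then p' y else 0) else 0) := by
          refine Finset.sum_congr rfl (fun y _ => ?_)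
          rw [Finset.sum_ite_eq]
          simp
      _ = ∑ ω, ∑ y, (if π y = ω then (if E ω (π x) then p' y else 0) else 0) := Finset.sum_comm
      _ = ∑ ω, (if E ω (π x) then p ω else 0) := by
          refine Finset.sum_congr rfl (fun ω _ => ?_)
          split_ifs with h
          · exact hπ ω
          · simp
  unfold ent
  congr 1
  calc ∑ x, p' x * Real.log (mass p' (E.comap π) x)
      = ∑ x, ∑ ω, (if π x = ω then p' x * Real.log (mass p E ω) else 0) := by
        refine Finset.sum_congr rfl (fun x _ => ?_)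
        rw [Finset.sum_ite_eq, hm]
        simp
    _ = ∑ ω, ∑ x, (if π x = ω then p' x * Real.log (mass p E ω) else 0) := Finset.sum_comm
    _ = ∑ ω, p ω * Real.log (mass p E ω) := by
        refine Finset.sum_congr rfl (fun ω _ => ?_)
        rw [← hπ ω, Finset.sum_mul]
        refine Finset.sum_congr rfl (fun x _ => ?_)
        split_ifs <;> simp

theorem push_comp {Ω Ω' W : Type*} [Fintype Ω] [Fintype Ω'] (p : Ω → ℝ) (p' : Ω' → ℝ) (π : Ω' → Ω)
    (hπ : ∀ ω, ∑ x, (if π x = ω then p' x else 0) = p ω) (g : Ω → W) (w : W) :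
    push p' (fun x => g (π x)) w = push p g w := by
  unfold push
  calc ∑ x, (if g (π x) = w then p' x else 0)
      = ∑ x, ∑ ω, (if π x = ω then (if g ω = w then p' x else 0) else 0) := by
        refine Finset.sum_congr rfl (fun x _ => ?_)
        rw [Finset.sum_ite_eq]
        simp
    _ = ∑ ω, ∑ x, (if π x = ω then (if g ω = w then p' x else 0) else 0) := Finset.sum_comm
    _ = ∑ ω, (if g ω = w then p ω else 0) := by
        refine Finset.sum_congr rfl (fun ω _ => ?_)
        split_ifs with h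
        · exact hπ ω
        · simp

end TropProf
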