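import Pool.Agent.TropProf.Matus

/-!
From counting data to entropies: for a finite set `R` with finitely many partitions `E s`, let
`dg (E s) r` be the size of the class of `r`.  The numbers `|R|`, `∑ r, (dg (E s) r) ^ K s` and
`∑ r, ∏ s, dg (E s) r` satisfy a Jensen type inequality `J ≥ 0`, and up to a multiple of `J` they
determine the entropies of the weighting `r ↦ ∏ s, dg (E s) r`.
-/

open scoped Classical
open Finset

namespace TropProf

section
variable {R S : Type} [Fintype R] [Fintype S]

/-- size of the class of `r` -/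
noncomputable def dg (E : Setoid R) (r : R) : ℝ := mass (fun _ => (1:ℝ)) E r

theorem one_le_dg (E : Setoid R) (r : R) : 1 ≤ dg E r := le_mass (fun _ => zero_le_one) E r

theorem dg_pos (E : Setoid R) (r : R) : 0 < dg E r := lt_of_lt_of_le one_pos (one_le_dg E r)

/-- Gibbs variational inequality -/
theorem gibbs {p : R → ℝ} (hp : IsProb p) (hpos : ∀ r, 0 < p r) (φ : R → ℝ) (hφ : ∀ r, 0 < φ r) :
    ent p ⊥ + ∑ r, p r * Real.log (φ r) ≤ Real.log (∑ r, φ r) := by
  have hne : Nonempty R := by
    by_contra h
    rw [not_nonempty_iff] at h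
    have := hp.sum_one
    simp at this
  set c := ∑ r, φ r with hc
  have hcpos : 0 < c := Finset.sum_pos (fun r _ => hφ r) Finset.univ_nonempty
  have h1 : ∀ r, p r * (Real.log (φ r) - Real.log (p r)) ≤ φ r / c - p r + p r * Real.log c := by
    intro r
    have h2 := Real.log_le_sub_one_of_pos (div_pos (hφ r) (mul_pos (hpos r) hcpos))
    rw [Real.log_div (hφ r).ne' (mul_pos (hpos r) hcpos).ne', Real.log_mul (hpos r).ne' hcpos.ne'] at h2
    have h3 := mul_le_mul_of_nonneg_left h2 (hpos r).le
    have h4 : p r * (φ r / (p r * c) - 1) = φ r / c - p r := by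
      have := (hpos r).ne'
      field_simp
    linarith
  have h2 := Finset.sum_le_sum (fun r (_ : r ∈ (Finset.univ : Finset R)) => h1 r)
  simp only [mul_sub, Finset.sum_sub_distrib, Finset.sum_add_distrib] at h2
  rw [← Finset.sum_div, ← Finset.sum_mul, hp.sum_one, ← hc, div_self hcpos.ne'] at h2
  unfold ent
  simp only [mass_bot]
  linarith

/-- the weighting -/
noncomputable def wt (E : S → Setoid R) (r : R) : ℝ := ∏ s, dg (E s) r

theorem wt_pos (E : S → Setoid R) (r : R) : 0 < wt E r := Finset.prod_pos (fun _ _ => dg_pos _ _)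

/-- `log |R|` -/
noncomputable def yB (R : Type) [Fintype R] : ℝ := Real.log (∑ _r : R, (1:ℝ))
/-- `log ∑ r, ∏ s, dg (E s) r` -/
noncomputable def yZ (E : S → Setoid R) : ℝ := Real.log (∑ r, wt E r)
/-- `log ∑ r, dg (E s) r ^ K` -/
noncomputable def yS (E : Setoid R) (K : ℕ) : ℝ := Real.log (∑ r, dg E r ^ K)

/-- the Jensen gap -/
noncomputable def gapJ (E : S → Setoid R) (K : S → ℕ) : ℝ :=
  (1 - ∑ s, 1 / (K s : ℝ)) * yB R + ∑ s, yS (E s) (K s) / K s - yZ E

/-- the approximate entropies -/
noncomputable def hhat (E : S → Setoid R) (K : S → ℕ) (s : S) : ℝ :=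
  yB R - (yS (E s) (K s) - yB R) / K s

theorem entropy_approx [Nonempty R] (E : S → Setoid R) (K : S → ℕ) (hK : ∀ s, 0 < K s)
    (hl : 0 < 1 - ∑ s, 1 / (K s : ℝ)) :
    0 ≤ gapJ E K ∧ ∃ p : R → ℝ, IsProb p ∧
      ∀ s, |ent p (E s) - hhat E K s| ≤ (2 / (1 - ∑ s, 1 / (K s : ℝ)) + 1) * gapJ E K := by
  set l0 := 1 - ∑ s, 1 / (K s : ℝ) with hl0
  set Z := ∑ r, wt E r with hZ
  have hZpos : 0 < Z := Finset.sum_pos (fun r _ => wt_pos E r) Finset.univ_nonempty
  set p : R → ℝ := fun r => wt E r / Z with hp
  have hppos : ∀ r, 0 < p r := fun r => div_pos (wt_pos E r) hZpos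
  have hprob : IsProb p := by
    refine ⟨fun r => (hppos r).le, ?_⟩
    rw [hp, ← Finset.sum_div, div_self hZpos.ne']
  set d : S → ℝ := fun s => ∑ r, p r * Real.log (dg (E s) r) with hd
  set Hf := ent p ⊥ with hHf
  have hHfeq : Hf = yZ E - ∑ s, d s := by
    rw [hHf]
    unfold ent
    simp only [mass_bot]
    have h1 : ∀ r, p r * Real.log (p r) = ∑ s, p r * Real.log (dg (E s) r) - p r * Real.log Z := by
      intro r
      have : Real.log (p r) = ∑ s, Real.log (dg (E s) r) - Real.log Z := by
        rw [hp]
        simp only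
        rw [Real.log_div (wt_pos E r).ne' hZpos.ne']
        unfold wt
        rw [Real.log_prod (fun s _ => (dg_pos (E s) r).ne')]
      rw [this, mul_sub, Finset.mul_sum]
    rw [Finset.sum_congr rfl (fun r _ => h1 r), Finset.sum_sub_distrib, ← Finset.sum_mul,
      hprob.sum_one, Finset.sum_comm]
    unfold yZ
    simp only [hd]
    ring
  -- gaps
  have g0 : 0 ≤ yB R - Hf := by
    have := gibbs hprob hppos (fun _ => (1:ℝ)) (fun _ => one_pos)
    simp only [Real.log_one, mul_zero, Finset.sum_const_zero, add_zero] at this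
    unfold yB
    linarith
  have gs : ∀ s, 0 ≤ yS (E s) (K s) - Hf - K s * d s := by
    intro s
    have := gibbs hprob hppos (fun r => dg (E s) r ^ K s) (fun r => pow_pos (dg_pos _ _) _)
    simp only [Real.log_pow] at this
    have e : ∑ r, p r * ((K s : ℝ) * Real.log (dg (E s) r)) = K s * d s := by
      rw [hd]
      simp only
      rw [Finset.mul_sum]
      refine Finset.sum_congr rfl (fun r _ => by ring)
    rw [e] at this
    unfold yS
    linarith
  -- J as a combination of gaps
  have hKpos : ∀ s, (0:ℝ) < K s := fun s => by exact_mod_cast hK s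
  have hJ : gapJ E K = l0 * (yB R - Hf) + ∑ s, (yS (E s) (K s) - Hf - K s * d s) / K s := by
    have e : ∀ s, (yS (E s) (K s) - Hf - K s * d s) / K s
        = yS (E s) (K s) / K s - Hf * (1 / (K s : ℝ)) - d s := by
      intro s
      have := (hKpos s).ne'
      field_simp
    rw [Finset.sum_congr rfl (fun s _ => e s), Finset.sum_sub_distrib, Finset.sum_sub_distrib,
      ← Finset.mul_sum]
    have e2 : ∑ s, 1 / (K s : ℝ) = 1 - l0 := by rw [hl0]; ring
    unfold gapJ
    rw [← hl0, e2]
    have : yZ E = Hf + ∑ s, d s := by rw [hHfeq]; ring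
    rw [this]
    ring
  have hsum_nonneg : ∀ s, 0 ≤ (yS (E s) (K s) - Hf - K s * d s) / K s :=
    fun s => div_nonneg (gs s) (hKpos s).le
  have hJnn : 0 ≤ gapJ E K := by
    rw [hJ]
    exact add_nonneg (mul_nonneg hl.le g0) (Finset.sum_nonneg (fun s _ => hsum_nonneg s))
  refine ⟨hJnn, p, hprob, ?_⟩
  intro s
  have hg0 : yB R - Hf ≤ gapJ E K / l0 := by
    rw [le_div_iff₀ hl, hJ]
    have := Finset.sum_nonneg (fun s (_ : s ∈ (Finset.univ : Finset S)) => hsum_nonneg s)
    linarith
  have hgs : (yS (E s) (K s) - Hf - K s * d s) / K s ≤ gapJ E K := by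
    rw [hJ]
    have h1 := Finset.single_le_sum (f := fun s => (yS (E s) (K s) - Hf - K s * d s) / K s)
      (fun s _ => hsum_nonneg s) (Finset.mem_univ s)
    have h2 : 0 ≤ l0 * (yB R - Hf) := mul_nonneg hl.le g0
    linarith
  -- (1) lower bound for the entropy
  have lower : Hf - d s ≤ ent p (E s) := by
    have h1 : ∀ r, p r * (Real.log (mass p (E s) r) - Real.log (p r) - Real.log (dg (E s) r))
        ≤ mass p (E s) r / dg (E s) r - p r := by
      intro r
      have hm := mass_pos (fun r => (hppos r).le) (E s) (hppos r)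
      have h2 := Real.log_le_sub_one_of_pos (div_pos hm (mul_pos (hppos r) (dg_pos (E s) r)))
      rw [Real.log_div hm.ne' (mul_pos (hppos r) (dg_pos (E s) r)).ne',
        Real.log_mul (hppos r).ne' (dg_pos (E s) r).ne'] at h2
      have h3 := mul_le_mul_of_nonneg_left h2 (hppos r).le
      have h4 : p r * (mass p (E s) r / (p r * dg (E s) r) - 1) = mass p (E s) r / dg (E s) r - p r := by
        have := (hppos r).ne'
        have := (dg_pos (E s) r).ne'
        field_simp
      linarith
    have h2 := Finset.sum_le_sum (fun r (_ : r ∈ (Finset.univ : Finset R)) => h1 r)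
    have h3 : ∑ r, mass p (E s) r / dg (E s) r = 1 := by
      have : ∀ r, mass p (E s) r / dg (E s) r
          = ∑ r', (if (E s) r' r then p r' / dg (E s) r' else 0) := by
        intro r
        unfold mass
        rw [Finset.sum_div]
        refine Finset.sum_congr rfl (fun r' _ => ?_)
        split_ifs with h
        · have : dg (E s) r = dg (E s) r' := mass_congr _ ((E s).symm h)
          rw [this]
        · simp
      rw [Finset.sum_congr rfl (fun r _ => this r), Finset.sum_comm]
      have h4 : ∀ r', ∑ r, (if (E s) r' r then p r' / dg (E s) r' else 0) = p r' := by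
        intro r'
        have h5 : ∑ r, (if (E s) r' r then p r' / dg (E s) r' else 0)
            = (∑ r, (if (E s) r r' then (1:ℝ) else 0)) * (p r' / dg (E s) r') := by
          rw [Finset.sum_mul]
          refine Finset.sum_congr rfl (fun r _ => ?_)
          have : (E s) r' r ↔ (E s) r r' := ⟨(E s).symm, (E s).symm⟩
          simp only [this]
          split_ifs <;> simp
        rw [h5]
        have h6 : ∑ r, (if (E s) r r' then (1:ℝ) else 0) = dg (E s) r' := rfl
        rw [h6]
        have := (dg_pos (E s) r').ne'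
        field_simp
      rw [Finset.sum_congr rfl (fun r _ => h4 r), hprob.sum_one]
    simp only [mul_sub, Finset.sum_sub_distrib] at h2
    rw [h3, hprob.sum_one] at h2
    rw [hHf]
    unfold ent
    simp only [mass_bot]
    simp only [hd]
    linarith
  -- (2) upper bound for the entropy
  have upper : ent p (E s) + d s ≤ yB R := by
    set c : ℝ := ∑ _r : R, (1:ℝ) with hc
    have hcpos : 0 < c := Finset.sum_pos (fun r _ => one_pos) Finset.univ_nonempty
    have h1 : ∀ r, p r * (Real.log (dg (E s) r) - Real.log (mass p (E s) r))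
        ≤ p r * dg (E s) r / mass p (E s) r / c - p r + p r * Real.log c := by
      intro r
      have hm := mass_pos (fun r => (hppos r).le) (E s) (hppos r)
      have h2 := Real.log_le_sub_one_of_pos (div_pos (dg_pos (E s) r) (mul_pos hm hcpos))
      rw [Real.log_div (dg_pos (E s) r).ne' (mul_pos hm hcpos).ne',
        Real.log_mul hm.ne' hcpos.ne'] at h2
      have h3 := mul_le_mul_of_nonneg_left h2 (hppos r).le
      have h4 : p r * (dg (E s) r / (mass p (E s) r * c) - 1)
          = p r * dg (E s) r / mass p (E s) r / c - p r := by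
        have := hm.ne'
        field_simp
      linarith
    have h2 := Finset.sum_le_sum (fun r (_ : r ∈ (Finset.univ : Finset R)) => h1 r)
    have h3 : ∑ r, p r * dg (E s) r / mass p (E s) r = c := by
      have : ∀ r, p r * dg (E s) r / mass p (E s) r
          = ∑ r', (if (E s) r' r then p r / mass p (E s) r' else 0) := by
        intro r
        have h6 : dg (E s) r = ∑ r', (if (E s) r' r then (1:ℝ) else 0) := rfl
        rw [h6, Finset.mul_sum, Finset.sum_div]
        refine Finset.sum_congr rfl (fun r' _ => ?_)
        split_ifs with h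
        · have : mass p (E s) r = mass p (E s) r' := mass_congr _ ((E s).symm h)
          rw [this, mul_one]
        · simp
      rw [Finset.sum_congr rfl (fun r _ => this r), Finset.sum_comm]
      have h4 : ∀ r', ∑ r, (if (E s) r' r then p r / mass p (E s) r' else 0) = 1 := by
        intro r'
        have h5 : ∑ r, (if (E s) r' r then p r / mass p (E s) r' else 0)
            = (∑ r, (if (E s) r r' then p r else 0)) / mass p (E s) r' := by
          rw [Finset.sum_div]
          refine Finset.sum_congr rfl (fun r _ => ?_)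
          have : (E s) r' r ↔ (E s) r r' := ⟨(E s).symm, (E s).symm⟩
          simp only [this]
          split_ifs <;> simp
        rw [h5]
        have h6 : ∑ r, (if (E s) r r' then p r else 0) = mass p (E s) r' := rfl
        rw [h6]
        exact div_self (mass_pos (fun r => (hppos r).le) (E s) (hppos r')).ne'
      rw [Finset.sum_congr rfl (fun r _ => h4 r)]
    simp only [mul_sub, Finset.sum_sub_distrib, Finset.sum_add_distrib] at h2
    rw [← Finset.sum_div, h3, ← Finset.sum_mul, hprob.sum_one, div_self hcpos.ne'] at h2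
    unfold ent yB
    rw [← hc]
    simp only [hd]
    linarith
  have hh : hhat E K s = yB R - d s - (yS (E s) (K s) - Hf - K s * d s) / K s + (yB R - Hf) / K s := by
    unfold hhat
    have := (hKpos s).ne'
    field_simp
    ring
  have hK1 : (1:ℝ) ≤ K s := by exact_mod_cast hK s
  have h5 : (yB R - Hf) / K s ≤ yB R - Hf := div_le_self g0 hK1
  have h6 : 0 ≤ (yB R - Hf) / K s := div_nonneg g0 (hKpos s).le
  have h7 := hsum_nonneg s
  have h8 : (2 / l0 + 1) * gapJ E K = 2 * (gapJ E K / l0) + gapJ E K := by ring
  rw [h8, hh, abs_le]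
  constructor
  · linarith
  · linarith

end

end TropProf
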