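import Pool.Agent.TropProf.Sys

/-!
Gluing copies of a graph `H` to a central copy along sets of vertices, and counting
homomorphisms from the glued graph.
-/

open scoped Classical
open Finset

namespace TropProf

section
variable {V : Type} [Fintype V]

/-- vertices of the glued graph -/
abbrev GV (V : Type) {n : ℕ} (S : Fin n → Finset V) : Type := V ⊕ (Σ j : Fin n, {v : V // v ∉ S j})

variable {n : ℕ} (S : Fin n → Finset V)

/-- the `j`-th glued copy -/
noncomputable def emb (j : Fin n) (v : V) : GV V S :=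
  if h : v ∈ S j then Sum.inl v else Sum.inr ⟨j, ⟨v, h⟩⟩

theorem emb_inj (j : Fin n) : Function.Injective (emb S j) := by
  intro u v h
  unfold emb at h
  by_cases hu : u ∈ S j <;> by_cases hv : v ∈ S j
  · rw [dif_pos hu, dif_pos hv] at h
    exact Sum.inl_injective h
  · rw [dif_pos hu, dif_neg hv] at h
    exact absurd h (by simp)
  · rw [dif_neg hu, dif_pos hv] at h
    exact absurd h (by simp)
  · rw [dif_neg hu, dif_neg hv] at h
    have := Sum.inr_injective h
    simp only [Sigma.mk.injEq, true_and] at this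
    have h2 := eq_of_heq this
    exact congrArg Subtype.val h2

/-- the glued graph -/
def glue (H : SimpleGraph V) : SimpleGraph (GV V S) where
  Adj x y := (∃ u v, H.Adj u v ∧ x = Sum.inl u ∧ y = Sum.inl v) ∨
    (∃ j u v, H.Adj u v ∧ x = emb S j u ∧ y = emb S j v)
  symm := ⟨by
    rintro x y (⟨u, v, h, hx, hy⟩ | ⟨j, u, v, h, hx, hy⟩)
    · exact Or.inl ⟨v, u, h.symm, hy, hx⟩
    · exact Or.inr ⟨j, v, u, h.symm, hy, hx⟩⟩
  loopless := ⟨by
    rintro x (⟨u, v, h, hx, hy⟩ | ⟨j, u, v, h, hx, hy⟩)
    · exact h.ne (Sum.inl_injective (hx.symm.trans hy))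
    · exact h.ne (emb_inj S j (hx.symm.trans hy))⟩

variable {W : Type} (H : SimpleGraph V) (G : SimpleGraph W)

/-- homomorphisms from the glued graph are compatible families -/
noncomputable def glueEquiv : (glue S H →g G) ≃
    (Σ φ : (H →g G), ∀ j : Fin n, {ψ : (H →g G) // ∀ v ∈ S j, ψ v = φ v}) where
  toFun F := ⟨⟨fun v => F (Sum.inl v), fun {u v} h => F.map_rel (Or.inl ⟨u, v, h, rfl, rfl⟩)⟩,
    fun j => ⟨⟨fun v => F (emb S j v), fun {u v} h => F.map_rel (Or.inr ⟨j, u, v, h, rfl, rfl⟩)⟩,
      fun v hv => by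
        show F (emb S j v) = F (Sum.inl v)
        unfold emb
        rw [dif_pos hv]⟩⟩
  invFun X := ⟨fun x => Sum.elim (fun v => X.1 v) (fun y => (X.2 y.1).1 y.2.1) x, by
    have key : ∀ j v, Sum.elim (fun v => X.1 v)
        (fun y : (Σ j : Fin n, {v : V // v ∉ S j}) => (X.2 y.1).1 y.2.1) (emb S j v) = (X.2 j).1 v := by
      intro j v
      unfold emb
      by_cases hv : v ∈ S j
      · rw [dif_pos hv]
        exact ((X.2 j).2 v hv).symm
      · rw [dif_neg hv]
        rfl
    rintro x y (⟨u, v, h, hx, hy⟩ | ⟨j, u, v, h, hx, hy⟩)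
    · rw [hx, hy]
      exact X.1.map_rel h
    · rw [hx, hy, key, key]
      exact (X.2 j).1.map_rel h⟩
  left_inv F := by
    ext x
    rcases x with v | ⟨j, v, hv⟩
    · rfl
    · show F (emb S j v) = _
      unfold emb
      rw [dif_neg hv]
  right_inv X := by
    obtain ⟨φ, ψ⟩ := X
    refine Sigma.ext ?_ ?_
    · ext v
      rfl
    · apply heq_of_eq
      funext j
      apply Subtype.ext
      ext v
      show Sum.elim _ _ (emb S j v) = _
      unfold emb
      by_cases hv : v ∈ S j
      · rw [dif_pos hv]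
        exact ((ψ j).2 v hv).symm
      · rw [dif_neg hv]
        rfl

noncomputable instance homFintype [Finite W] : Fintype (H →g G) :=
  have : Finite (H →g G) := Finite.of_injective (fun f : (H →g G) => (f : V → W)) DFunLike.coe_injective
  Fintype.ofFinite _

theorem card_glue [Finite W] : Nat.card (glue S H →g G)
    = ∑ φ : (H →g G), ∏ j : Fin n, Nat.card {ψ : (H →g G) // ∀ v ∈ S j, ψ v = φ v} := by
  rw [Nat.card_congr (glueEquiv S H G), Nat.card_sigma]
  refine Finset.sum_congr rfl (fun φ _ => ?_)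
  rw [Nat.card_pi]

/-- the glued graph is connected -/
theorem glue_connected (hH : H.Connected) (hS : ∀ j, (S j).Nonempty) : (glue S H).Connected := by
  let f0 : H →g glue S H := ⟨fun v => Sum.inl v, fun {u v} h => Or.inl ⟨u, v, h, rfl, rfl⟩⟩
  let f : Fin n → (H →g glue S H) := fun j =>
    ⟨fun v => emb S j v, fun {u v} h => Or.inr ⟨j, u, v, h, rfl, rfl⟩⟩
  have hne := hH.nonempty
  obtain ⟨v0⟩ := hne
  have reach : ∀ x, (glue S H).Reachable (Sum.inl v0) x := by
    intro x
    rcases x with v | ⟨j, v, hv⟩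
    · exact (hH.preconnected v0 v).map f0
    · obtain ⟨s, hs⟩ := hS j
      have h1 : (glue S H).Reachable (Sum.inl v0) (Sum.inl s) := (hH.preconnected v0 s).map f0
      have h2 : (glue S H).Reachable (emb S j s) (emb S j v) := (hH.preconnected s v).map (f j)
      have e1 : emb S j s = Sum.inl s := by unfold emb; rw [dif_pos hs]
      have e2 : emb S j v = Sum.inr ⟨j, ⟨v, hv⟩⟩ := by unfold emb; rw [dif_neg hv]
      rw [e1, e2] at h2
      exact h1.trans h2
  have : Nonempty (GV V S) := ⟨Sum.inl v0⟩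
  exact ⟨fun x y => (reach x).symm.trans (reach y)⟩

theorem card_GV : Nat.card (GV V S) = Fintype.card V + ∑ j, (Fintype.card V - (S j).card) := by
  rw [Nat.card_eq_fintype_card, Fintype.card_sum, Fintype.card_sigma]
  congr 1
  refine Finset.sum_congr rfl (fun j _ => ?_)
  rw [Fintype.card_subtype_compl]
  simp

end

end TropProf
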