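import Pool.Agent.TropProf.Copy

open scoped Classical
open Finset

namespace TropProf

section lat
variable {α : Type*} [SemilatticeInf α]
theorem lat1 (a b x r : α) : (a ⊓ b ⊓ r) ⊓ (a ⊓ b ⊓ x) = a ⊓ b ⊓ x ⊓ r := by
  simp [inf_comm, inf_left_comm]
theorem lat2 (a b r : α) : a ⊓ r ⊓ b = a ⊓ b ⊓ r := by simp [inf_comm, inf_left_comm]
theorem lat3 (a b r : α) : b ⊓ r ⊓ a = a ⊓ b ⊓ r := by simp [inf_comm, inf_left_comm]
theorem lat4 (b r c : α) : b ⊓ r ⊓ (b ⊓ c) = r ⊓ c ⊓ b := by simp [inf_comm, inf_left_comm]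
theorem lat5 (a b r c : α) : a ⊓ (r ⊓ c) ⊓ b = a ⊓ b ⊓ c ⊓ r := by simp [inf_comm, inf_left_comm]
theorem lat6 (a b r c : α) : b ⊓ (r ⊓ c) ⊓ a = a ⊓ b ⊓ c ⊓ r := by simp [inf_comm, inf_left_comm]
end lat

section five
variable {Ω : Type} [Fintype Ω]

/-- Ingleton expression `I(A;B|C) + I(A;B|D) + I(C;D) - I(A;B)` -/
noncomputable def ingl (p : Ω → ℝ) (A B C D : Setoid Ω) : ℝ :=
  ent p (A ⊓ C) + ent p (B ⊓ C) + ent p (A ⊓ D) + ent p (B ⊓ D) + ent p (A ⊓ B)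
    - ent p (A ⊓ B ⊓ C) - ent p (A ⊓ B ⊓ D) - ent p (C ⊓ D) - ent p A - ent p B

/-- `I(X;Y|Z)` -/
noncomputable def cmi (p : Ω → ℝ) (X Y Z : Setoid Ω) : ℝ :=
  ent p (X ⊓ Z) + ent p (Y ⊓ Z) - ent p (X ⊓ Y ⊓ Z) - ent p Z

/-- `I(X;Y)` -/
noncomputable def mi (p : Ω → ℝ) (X Y : Setoid Ω) : ℝ :=
  ent p X + ent p Y - ent p (X ⊓ Y)

theorem cmi_nonneg {p : Ω → ℝ} (hp : IsProb p) (X Y Z : Setoid Ω) : 0 ≤ cmi p X Y Z := by
  have h := submod hp (E := X ⊓ Z) (F := Y ⊓ Z) (Z := Z) inf_le_right inf_le_right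
  have e : X ⊓ Z ⊓ (Y ⊓ Z) = X ⊓ Y ⊓ Z := by
    simp [inf_comm, inf_left_comm]
  rw [e] at h
  unfold cmi
  linarith

theorem step_ineq {p : Ω → ℝ} (hp : IsProb p) (A B C D R : Setoid Ω)
    (hC : ent p (A ⊓ B ⊓ C ⊓ R) = ent p (A ⊓ B ⊓ R) + ent p (A ⊓ B ⊓ C) - ent p (A ⊓ B))
    (hD : ent p (A ⊓ B ⊓ D ⊓ R) = ent p (A ⊓ B ⊓ R) + ent p (A ⊓ B ⊓ D) - ent p (A ⊓ B))
    (hCD : ent p (A ⊓ B ⊓ (C ⊓ D) ⊓ R) =
      ent p (A ⊓ B ⊓ R) + ent p (A ⊓ B ⊓ (C ⊓ D)) - ent p (A ⊓ B)) :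
    0 ≤ ingl p A B C D + (cmi p A B R - cmi p A B (R ⊓ C)) + cmi p A R B + cmi p B R A := by
  -- (1) H(BCR) - H(BC) ≤ H(BR) - H(B)
  have s1 := submod hp (E := B ⊓ R) (F := B ⊓ C) (Z := B) inf_le_left inf_le_left
  -- (2)
  have s2 := submod hp (E := B ⊓ R) (F := B ⊓ D) (Z := B) inf_le_left inf_le_left
  -- (3)
  have s3 := submod hp (E := C ⊓ R) (F := D ⊓ R) (Z := R) inf_le_right inf_le_right
  -- (4) I(A;R|CD) ≥ 0
  have s4 := submod hp (E := A ⊓ (C ⊓ D)) (F := R ⊓ (C ⊓ D)) (Z := C ⊓ D) inf_le_right inf_le_right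
  -- (5) I(D;R|A) ≥ 0, I(B;R|ACD) ≥ 0
  have s5 := submod hp (E := A ⊓ D) (F := A ⊓ R) (Z := A) inf_le_left inf_le_left
  have s6 := submod hp (E := A ⊓ B ⊓ (C ⊓ D)) (F := A ⊓ (C ⊓ D) ⊓ R) (Z := A ⊓ (C ⊓ D))
    (by rw [inf_assoc]; exact inf_le_inf_left _ inf_le_right) inf_le_left
  -- (6) I(A;B|DR) ≥ 0, I(R;C|A) ≥ 0
  have s7 := submod hp (E := A ⊓ D ⊓ R) (F := B ⊓ D ⊓ R) (Z := D ⊓ R)
    (by rw [inf_assoc]; exact inf_le_right) (by rw [inf_assoc]; exact inf_le_right)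
  have s8 := submod hp (E := A ⊓ R) (F := A ⊓ C) (Z := A) inf_le_left inf_le_left
  unfold ingl cmi
  simp only [inf_comm, inf_left_comm, inf_left_idem, inf_idem] at *
  linarith

end five

theorem ker_pair {Ω W : Type} (a b : Ω → W) :
    Setoid.ker (fun x => (a x, b x)) = Setoid.ker a ⊓ Setoid.ker b := by
  ext x y
  constructor
  · intro h
    exact ⟨congrArg Prod.fst h, congrArg Prod.snd h⟩
  · intro h
    exact Prod.ext h.1 h.2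

/-- stage `k` of the iterated copy construction -/
def Stage {Ω W : Type} [Fintype Ω] (p : Ω → ℝ) (a b : Ω → W) (C D : Setoid Ω) (k : ℕ) : Prop :=
  ∃ (Ω₁ : Type) (_ : Fintype Ω₁) (p₁ : Ω₁ → ℝ) (a₁ b₁ : Ω₁ → W) (R : Setoid Ω₁),
    IsProb p₁ ∧
    (∀ w, push p₁ (fun u => (a₁ u, b₁ u)) w = push p (fun ω => (a ω, b ω)) w) ∧
    cmi p₁ (Setoid.ker a₁) R (Setoid.ker b₁) ≤ k * cmi p (Setoid.ker a) C (Setoid.ker b) ∧
    cmi p₁ (Setoid.ker b₁) R (Setoid.ker a₁) ≤ k * cmi p (Setoid.ker b) C (Setoid.ker a) ∧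
    0 ≤ k * ingl p (Setoid.ker a) (Setoid.ker b) C D + mi p (Setoid.ker a) (Setoid.ker b)
      - cmi p₁ (Setoid.ker a₁) (Setoid.ker b₁) R
      + (k * (k - 1) / 2) * (cmi p (Setoid.ker a) C (Setoid.ker b)
        + cmi p (Setoid.ker b) C (Setoid.ker a))

theorem ent_top {Ω : Type} [Fintype Ω] {p : Ω → ℝ} (hp : IsProb p) : ent p ⊤ = 0 := by
  unfold ent
  rw [mass_top, hp.sum_one]
  simp

theorem stage_zero {Ω W : Type} [Fintype Ω] {p : Ω → ℝ} (hp : IsProb p) (a b : Ω → W)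
    (C D : Setoid Ω) : Stage p a b C D 0 := by
  refine ⟨Ω, inferInstance, p, a, b, ⊤, hp, fun _ => rfl, ?_, ?_, ?_⟩
  · unfold cmi; simp [inf_comm]
  · unfold cmi; simp [inf_comm]
  · unfold cmi mi; simp [ent_top hp]

theorem stage_succ {Ω W : Type} [Fintype Ω] {p : Ω → ℝ} (hp : IsProb p) (a b : Ω → W)
    (C D : Setoid Ω) (k : ℕ) (h : Stage p a b C D k) : Stage p a b C D (k + 1) := by
  obtain ⟨Ω₁, _, p₁, a₁, b₁, R, hp₁, hm, h1, h2, h3⟩ := h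
  set f₁ : Ω₁ → W × W := fun x => (a₁ x, b₁ x) with hf₁
  set f₂ : Ω → W × W := fun x => (a x, b x) with hf₂
  have hker₁ : Setoid.ker f₁ = Setoid.ker a₁ ⊓ Setoid.ker b₁ := ker_pair a₁ b₁
  have hker₂ : Setoid.ker f₂ = Setoid.ker a ⊓ Setoid.ker b := ker_pair a b
  have hq : IsProb (cpl p₁ p f₁ f₂) := cpl_prob hp₁ hp hm
  have efst : ∀ F : Setoid Ω₁, ent (cpl p₁ p f₁ f₂) (F.comap (fun y : FP f₁ f₂ => y.1.1)) = ent p₁ F :=
    fun F => ent_comap p₁ _ _ (cpl_fst hp₁ hp hm) F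
  have esnd : ∀ E : Setoid Ω, ent (cpl p₁ p f₁ f₂) (E.comap (fun y : FP f₁ f₂ => y.1.2)) = ent p E :=
    fun E => ent_comap p _ _ (cpl_snd hp hm) E
  -- the two descriptions of A and B agree
  have hA : (Setoid.ker a₁).comap (fun y : FP f₁ f₂ => y.1.1)
      = (Setoid.ker a).comap (fun y : FP f₁ f₂ => y.1.2) := by
    ext x y
    have hx := congrArg Prod.fst x.2
    have hy := congrArg Prod.fst y.2
    simp only [hf₁, hf₂] at hx hy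
    simp only [Setoid.comap_rel, Setoid.ker_def, hx, hy]
  have hB : (Setoid.ker b₁).comap (fun y : FP f₁ f₂ => y.1.1)
      = (Setoid.ker b).comap (fun y : FP f₁ f₂ => y.1.2) := by
    ext x y
    have hx := congrArg Prod.snd x.2
    have hy := congrArg Prod.snd y.2
    simp only [hf₁, hf₂] at hx hy
    simp only [Setoid.comap_rel, Setoid.ker_def, hx, hy]
  have cinf₁ : ∀ F F' : Setoid Ω₁, (F ⊓ F').comap (fun y : FP f₁ f₂ => y.1.1)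
      = F.comap (fun y : FP f₁ f₂ => y.1.1) ⊓ F'.comap (fun y : FP f₁ f₂ => y.1.1) := fun _ _ => rfl
  have cinf₂ : ∀ F F' : Setoid Ω, (F ⊓ F').comap (fun y : FP f₁ f₂ => y.1.2)
      = F.comap (fun y : FP f₁ f₂ => y.1.2) ⊓ F'.comap (fun y : FP f₁ f₂ => y.1.2) := fun _ _ => rfl
  have ejoint : ∀ X : Setoid Ω, ent (cpl p₁ p f₁ f₂)
      ((Setoid.ker a).comap (fun y : FP f₁ f₂ => y.1.2) ⊓
        (Setoid.ker b).comap (fun y : FP f₁ f₂ => y.1.2) ⊓ X.comap (fun y : FP f₁ f₂ => y.1.2) ⊓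
        R.comap (fun y : FP f₁ f₂ => y.1.1))
      = ent p₁ (Setoid.ker a₁ ⊓ Setoid.ker b₁ ⊓ R) + ent p (Setoid.ker a ⊓ Setoid.ker b ⊓ X)
        - ent p (Setoid.ker a ⊓ Setoid.ker b) := by
    intro X
    have h := ent_cpl hp₁ hp hm (F := Setoid.ker a₁ ⊓ Setoid.ker b₁ ⊓ R)
      (E := Setoid.ker a ⊓ Setoid.ker b ⊓ X) (by rw [hker₁]; exact inf_le_left)
      (by rw [hker₂]; exact inf_le_left)
    rw [hker₂] at h
    rw [← h]
    congr 1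
    rw [cinf₁, cinf₁, cinf₂, cinf₂, hA, hB]
    exact (lat1 _ _ _ _).symm
  set q := cpl p₁ p f₁ f₂ with hqdef
  set A' := (Setoid.ker a).comap (fun y : FP f₁ f₂ => y.1.2) with hA'
  set B' := (Setoid.ker b).comap (fun y : FP f₁ f₂ => y.1.2) with hB'
  set C' := C.comap (fun y : FP f₁ f₂ => y.1.2) with hC'
  set D' := D.comap (fun y : FP f₁ f₂ => y.1.2) with hD'
  set R' := R.comap (fun y : FP f₁ f₂ => y.1.1) with hR'
  have eABR : ent q (A' ⊓ B' ⊓ R') = ent p₁ (Setoid.ker a₁ ⊓ Setoid.ker b₁ ⊓ R) := by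
    rw [← efst, cinf₁, cinf₁, hA, hB]
  have eAR : ent q (A' ⊓ R') = ent p₁ (Setoid.ker a₁ ⊓ R) := by
    rw [← efst, cinf₁, hA]
  have eBR : ent q (B' ⊓ R') = ent p₁ (Setoid.ker b₁ ⊓ R) := by
    rw [← efst, cinf₁, hB]
  have eR : ent q R' = ent p₁ R := efst R
  have eAB1 : ent q (A' ⊓ B') = ent p₁ (Setoid.ker a₁ ⊓ Setoid.ker b₁) := by
    rw [← efst, cinf₁, hA, hB]
  have eA1 : ent q A' = ent p₁ (Setoid.ker a₁) := by rw [← efst, hA]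
  have eB1 : ent q B' = ent p₁ (Setoid.ker b₁) := by rw [← efst, hB]
  have eAB : ent q (A' ⊓ B') = ent p (Setoid.ker a ⊓ Setoid.ker b) := by rw [← esnd, cinf₂]
  have eA : ent q A' = ent p (Setoid.ker a) := esnd _
  have eB : ent q B' = ent p (Setoid.ker b) := esnd _
  have eAC : ent q (A' ⊓ C') = ent p (Setoid.ker a ⊓ C) := by rw [← esnd, cinf₂]
  have eBC : ent q (B' ⊓ C') = ent p (Setoid.ker b ⊓ C) := by rw [← esnd, cinf₂]
  have eAD : ent q (A' ⊓ D') = ent p (Setoid.ker a ⊓ D) := by rw [← esnd, cinf₂]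
  have eBD : ent q (B' ⊓ D') = ent p (Setoid.ker b ⊓ D) := by rw [← esnd, cinf₂]
  have eCD : ent q (C' ⊓ D') = ent p (C ⊓ D) := by rw [← esnd, cinf₂]
  have eABC : ent q (A' ⊓ B' ⊓ C') = ent p (Setoid.ker a ⊓ Setoid.ker b ⊓ C) := by
    rw [← esnd, cinf₂, cinf₂]
  have eABD : ent q (A' ⊓ B' ⊓ D') = ent p (Setoid.ker a ⊓ Setoid.ker b ⊓ D) := by
    rw [← esnd, cinf₂, cinf₂]
  have eABCD : ent q (A' ⊓ B' ⊓ (C' ⊓ D')) = ent p (Setoid.ker a ⊓ Setoid.ker b ⊓ (C ⊓ D)) := by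
    rw [← esnd, cinf₂, cinf₂, cinf₂]
  have jC := ejoint C
  have jD := ejoint D
  have jCD := ejoint (C ⊓ D)
  rw [cinf₂] at jCD
  have hstep := step_ineq hq A' B' C' D' R' (by rw [jC, eABR, eABC, eAB]) (by rw [jD, eABR, eABD, eAB])
    (by rw [jCD, eABR, eABCD, eAB])
  have hing : ingl q A' B' C' D' = ingl p (Setoid.ker a) (Setoid.ker b) C D := by
    unfold ingl
    rw [eAC, eBC, eAD, eBD, eAB, eABC, eABD, eCD, eA, eB]
  have hcR : cmi q A' B' R' = cmi p₁ (Setoid.ker a₁) (Setoid.ker b₁) R := by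
    unfold cmi
    rw [eAR, eBR, eABR, eR]
  have e1 : A' ⊓ R' ⊓ B' = A' ⊓ B' ⊓ R' := lat2 _ _ _
  have e2 : B' ⊓ R' ⊓ A' = A' ⊓ B' ⊓ R' := lat3 _ _ _
  have e3 : Setoid.ker a₁ ⊓ R ⊓ Setoid.ker b₁ = Setoid.ker a₁ ⊓ Setoid.ker b₁ ⊓ R := lat2 _ _ _
  have e4 : Setoid.ker b₁ ⊓ R ⊓ Setoid.ker a₁ = Setoid.ker a₁ ⊓ Setoid.ker b₁ ⊓ R := lat3 _ _ _
  have hAR : cmi q A' R' B' = cmi p₁ (Setoid.ker a₁) R (Setoid.ker b₁) := by
    unfold cmi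
    rw [e1, e3, eABR, eAB1, inf_comm R' B', eBR, inf_comm R (Setoid.ker b₁), eB1]
  have hBR : cmi q B' R' A' = cmi p₁ (Setoid.ker b₁) R (Setoid.ker a₁) := by
    unfold cmi
    rw [e2, e4, eABR, inf_comm B' A', eAB1, inf_comm R' A', eAR, inf_comm R (Setoid.ker a₁), eA1,
      inf_comm (Setoid.ker b₁) (Setoid.ker a₁)]
  refine ⟨FP f₁ f₂, inferInstance, q, fun y => a y.1.2, fun y => b y.1.2, R' ⊓ C', hq, ?_, ?_, ?_, ?_⟩
  · intro w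
    exact push_comp p q (fun y : FP f₁ f₂ => y.1.2) (cpl_snd hp hm) (fun ω => (a ω, b ω)) w
  · show cmi q A' (R' ⊓ C') B' ≤ _
    have s := submod hq (E := B' ⊓ R') (F := B' ⊓ C') (Z := B') inf_le_left inf_le_left
    have e5 : B' ⊓ R' ⊓ (B' ⊓ C') = R' ⊓ C' ⊓ B' := lat4 _ _ _
    have e6 : A' ⊓ (R' ⊓ C') ⊓ B' = A' ⊓ B' ⊓ C' ⊓ R' := lat5 _ _ _ _
    have e7 : Setoid.ker a ⊓ C ⊓ Setoid.ker b = Setoid.ker a ⊓ Setoid.ker b ⊓ C := lat2 _ _ _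
    rw [e5] at s
    have hle : cmi q A' (R' ⊓ C') B' ≤ cmi q A' R' B' + cmi p (Setoid.ker a) C (Setoid.ker b) := by
      unfold cmi
      rw [e6, jC, e1, eABR, e7, inf_comm R' B', inf_comm C (Setoid.ker b)]
      rw [← eABC, ← eBC, ← eAB, ← eB]
      linarith
    rw [hAR] at hle
    push_cast
    linarith
  · show cmi q B' (R' ⊓ C') A' ≤ _
    have s := submod hq (E := A' ⊓ R') (F := A' ⊓ C') (Z := A') inf_le_left inf_le_left
    have e5 : A' ⊓ R' ⊓ (A' ⊓ C') = R' ⊓ C' ⊓ A' := lat4 _ _ _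
    have e6 : B' ⊓ (R' ⊓ C') ⊓ A' = A' ⊓ B' ⊓ C' ⊓ R' := lat6 _ _ _ _
    have e7 : Setoid.ker b ⊓ C ⊓ Setoid.ker a = Setoid.ker a ⊓ Setoid.ker b ⊓ C := lat3 _ _ _
    rw [e5] at s
    have hle : cmi q B' (R' ⊓ C') A' ≤ cmi q B' R' A' + cmi p (Setoid.ker b) C (Setoid.ker a) := by
      unfold cmi
      rw [e6, jC, e2, eABR, e7, inf_comm R' A', inf_comm C (Setoid.ker a), inf_comm B' A',
        inf_comm (Setoid.ker b) (Setoid.ker a)]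
      rw [← eABC, ← eAC, ← eAB, ← eA]
      linarith
    rw [hBR] at hle
    push_cast
    linarith
  · show 0 ≤ _ + _ - cmi q A' B' (R' ⊓ C') + _
    rw [hing, hcR, hAR, hBR] at hstep
    push_cast
    nlinarith [hstep, h1, h2, h3]

theorem stage_all {Ω W : Type} [Fintype Ω] {p : Ω → ℝ} (hp : IsProb p) (a b : Ω → W)
    (C D : Setoid Ω) (k : ℕ) : Stage p a b C D k := by
  induction k with
  | zero => exact stage_zero hp a b C D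
  | succ k ih => exact stage_succ hp a b C D k ih

/-- the infinite family of information inequalities (Matus) -/
theorem matus {Ω W : Type} [Fintype Ω] {p : Ω → ℝ} (hp : IsProb p) (a b : Ω → W)
    (C D : Setoid Ω) (k : ℕ) :
    0 ≤ k * ingl p (Setoid.ker a) (Setoid.ker b) C D + mi p (Setoid.ker a) (Setoid.ker b)
      + (k * (k - 1) / 2) * (cmi p (Setoid.ker a) C (Setoid.ker b)
        + cmi p (Setoid.ker b) C (Setoid.ker a)) := by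
  obtain ⟨Ω₁, _, p₁, a₁, b₁, R, hp₁, -, -, -, h3⟩ := stage_all hp a b C D k
  have := cmi_nonneg hp₁ (Setoid.ker a₁) (Setoid.ker b₁) R
  linarith

end TropProf
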