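import Pool.Agent.TropProf.Perm

/-!
The weighted system on a path: `A, B` are the even and the odd end of a random edge, `D` is a random
end of it and `C` is a bit.
-/

open Finset

namespace TropProf

section
variable (n : ℕ)

/-- cells: edge, side, bit -/
abbrev Kp : Type := Fin (n + 1) × Bool × Bool

/-- weights of the cells -/
def mp (c : Kp n) : ℕ :=
  match c.2.1, c.2.2 with
  | false, true => n + c.1.val
  | false, false => n - c.1.val
  | true, true => c.1.val
  | true, false => 2 * n - c.1.val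

def aF (i : ℕ) : ℕ := i + i % 2
def bF (i : ℕ) : ℕ := i + (i + 1) % 2
def dF (i : ℕ) (s : Bool) : ℕ := if s then i + 1 else i

theorem dF_inj {i : ℕ} {s s' : Bool} (h : dF i s = dF i s') : s = s' := by
  cases s <;> cases s' <;> simp [dF] at h ⊢

/-- the four partitions -/
def Fp : Fin 4 → Setoid (Kp n) :=
  ![Setoid.ker (fun c => aF c.1.val), Setoid.ker (fun c => bF c.1.val),
    Setoid.ker (fun c => c.2.2), Setoid.ker (fun c => dF c.1.val c.2.1)]

/-- real weights -/
noncomputable def wp (c : Kp n) : ℝ := (mp n c : ℝ)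

/-- the same as a function of a natural number -/
noncomputable def wF (s t : Bool) (i : ℕ) : ℝ :=
  match s, t with
  | false, true => n + i
  | false, false => n - i
  | true, true => i
  | true, false => 2 * n - i

theorem wp_eq (c : Kp n) : wp n c = wF n c.2.1 c.2.2 c.1.val := by
  obtain ⟨i, s, t⟩ := c
  have hi : i.val ≤ n := Nat.lt_succ_iff.mp i.isLt
  unfold wp mp wF
  cases s <;> cases t <;> simp only
  · rw [Nat.cast_sub hi]
  · push_cast; ring
  · rw [Nat.cast_sub (by omega)]; push_cast; ring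

noncomputable def eF (t : Bool) (i : ℕ) : ℝ := if t then n + 2 * i else 3 * n - 2 * i
noncomputable def qF (t : Bool) (x : ℕ) : ℝ := if t then n + 2 * x - 1 else 3 * n - 2 * x + 1
noncomputable def NF (x : ℕ) : ℝ := if x = 0 ∨ x = n + 1 then 4 * n else 8 * n
noncomputable def NtF (t : Bool) (x : ℕ) : ℝ :=
  if x = 0 then eF n t 0 else if x = n + 1 then eF n t n else 2 * qF n t x
noncomputable def DtF (t : Bool) (x : ℕ) : ℝ := if x = 0 ∨ x = n + 1 then (n:ℝ) else qF n t x
noncomputable def DdF (x : ℕ) : ℝ := if x = 0 ∨ x = n + 1 then 2 * n else 4 * n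

theorem sum_single (g : ℕ → ℝ) (x : ℕ) :
    ∑ i : Fin (n + 1), (if i.val = x then g i.val else 0) = if x ≤ n then g x else 0 := by
  rw [Fin.sum_univ_eq_sum_range (fun i => if i = x then g i else 0) (n + 1), Finset.sum_ite_eq']
  simp only [Finset.mem_range, Nat.lt_succ_iff]

theorem sum_pred (g : ℕ → ℝ) (x : ℕ) :
    ∑ i : Fin (n + 1), (if i.val + 1 = x then g i.val else 0)
      = if 1 ≤ x ∧ x ≤ n + 1 then g (x - 1) else 0 := by
  rcases Nat.eq_zero_or_pos x with rfl | hx
  · simp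
  · obtain ⟨y, rfl⟩ : ∃ y, x = y + 1 := ⟨x - 1, by omega⟩
    simp only [Nat.add_right_cancel_iff]
    rw [sum_single]
    simp

theorem sum_inc (g : ℕ → ℝ) (x : ℕ) :
    ∑ i : Fin (n + 1), (if i.val = x ∨ i.val + 1 = x then g i.val else 0)
      = (if x ≤ n then g x else 0) + (if 1 ≤ x ∧ x ≤ n + 1 then g (x - 1) else 0) := by
  rw [← sum_single, ← sum_pred, ← Finset.sum_add_distrib]
  refine Finset.sum_congr rfl (fun i _ => ?_)
  by_cases h1 : i.val = x
  · have h2 : ¬ i.val + 1 = x := by omega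
    simp [h1]
  · simp [h1]

open scoped Classical in
theorem mass_path (E : Setoid (Kp n)) (c : Kp n) (g : ℕ → ℝ)
    (h : ∀ i : Fin (n + 1), (∑ s : Bool, ∑ t : Bool,
      (if E (i, s, t) c then wF n s t i.val else 0)) = g i.val) :
    mass (wp n) E c = ∑ i : Fin (n + 1), g i.val := by
  unfold mass
  rw [Fintype.sum_prod_type]
  refine Finset.sum_congr rfl (fun i _ => ?_)
  rw [Fintype.sum_prod_type, ← h i]
  refine Finset.sum_congr rfl (fun s _ => Finset.sum_congr rfl (fun t _ => ?_))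
  rw [wp_eq]

theorem mass_A (c : Kp n) : mass (wp n) (Fp n 0) c = ∑ i : Fin (n + 1),
    (if i.val = aF c.1.val ∨ i.val + 1 = aF c.1.val then 4 * (n:ℝ) else 0) := by
  classical
  refine mass_path n _ c (fun i => if i = aF c.1.val ∨ i + 1 = aF c.1.val then 4 * (n:ℝ) else 0) ?_
  intro i
  have hrel : ∀ s t, (Fp n 0) (i, s, t) c ↔ (i.val = aF c.1.val ∨ i.val + 1 = aF c.1.val) := by
    intro s t
    show aF i.val = aF c.1.val ↔ _
    unfold aF
    omega
  simp only [hrel, Fintype.sum_bool]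
  split_ifs
  · simp [wF]; ring
  · simp

theorem mass_B (c : Kp n) : mass (wp n) (Fp n 1) c = ∑ i : Fin (n + 1),
    (if i.val = bF c.1.val ∨ i.val + 1 = bF c.1.val then 4 * (n:ℝ) else 0) := by
  classical
  refine mass_path n _ c (fun i => if i = bF c.1.val ∨ i + 1 = bF c.1.val then 4 * (n:ℝ) else 0) ?_
  intro i
  have hrel : ∀ s t, (Fp n 1) (i, s, t) c ↔ (i.val = bF c.1.val ∨ i.val + 1 = bF c.1.val) := by
    intro s t
    show bF i.val = bF c.1.val ↔ _
    unfold bF
    omega
  simp only [hrel, Fintype.sum_bool]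
  split_ifs
  · simp [wF]; ring
  · simp

theorem mass_AC (c : Kp n) : mass (wp n) (Fp n 0 ⊓ Fp n 2) c = ∑ i : Fin (n + 1),
    (if i.val = aF c.1.val ∨ i.val + 1 = aF c.1.val then eF n c.2.2 i.val else 0) := by
  classical
  refine mass_path n _ c (fun i => if i = aF c.1.val ∨ i + 1 = aF c.1.val then eF n c.2.2 i else 0) ?_
  intro i
  have hrel : ∀ s t, (Fp n 0 ⊓ Fp n 2) (i, s, t) c ↔
      ((i.val = aF c.1.val ∨ i.val + 1 = aF c.1.val) ∧ t = c.2.2) := by
    intro s t
    show (aF i.val = aF c.1.val ∧ t = c.2.2) ↔ _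
    unfold aF
    rw [and_congr_left_iff]
    intro _
    omega
  simp only [hrel, Fintype.sum_bool]
  obtain ⟨i0, s0, t0⟩ := c
  cases t0 <;> simp only [and_true, and_false, reduceCtorEq, if_false, zero_add, add_zero] <;>
    split_ifs <;> simp [wF, eF] <;> ring

theorem mass_BC (c : Kp n) : mass (wp n) (Fp n 1 ⊓ Fp n 2) c = ∑ i : Fin (n + 1),
    (if i.val = bF c.1.val ∨ i.val + 1 = bF c.1.val then eF n c.2.2 i.val else 0) := by
  classical
  refine mass_path n _ c (fun i => if i = bF c.1.val ∨ i + 1 = bF c.1.val then eF n c.2.2 i else 0) ?_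
  intro i
  have hrel : ∀ s t, (Fp n 1 ⊓ Fp n 2) (i, s, t) c ↔
      ((i.val = bF c.1.val ∨ i.val + 1 = bF c.1.val) ∧ t = c.2.2) := by
    intro s t
    show (bF i.val = bF c.1.val ∧ t = c.2.2) ↔ _
    unfold bF
    rw [and_congr_left_iff]
    intro _
    omega
  simp only [hrel, Fintype.sum_bool]
  obtain ⟨i0, s0, t0⟩ := c
  cases t0 <;> simp only [and_true, and_false, reduceCtorEq, if_false, zero_add, add_zero] <;>
    split_ifs <;> simp [wF, eF] <;> ring

theorem mass_AB (c : Kp n) : mass (wp n) (Fp n 0 ⊓ Fp n 1) c = 4 * n := by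
  classical
  have h := mass_path n (Fp n 0 ⊓ Fp n 1) c (fun i => if i = c.1.val then 4 * (n:ℝ) else 0) (by
    intro i
    have hrel : ∀ s t, (Fp n 0 ⊓ Fp n 1) (i, s, t) c ↔ i.val = c.1.val := by
      intro s t
      show (aF i.val = aF c.1.val ∧ bF i.val = bF c.1.val) ↔ _
      unfold aF bF
      omega
    simp only [hrel, Fintype.sum_bool]
    split_ifs
    · simp [wF]; ring
    · simp)
  rw [h, sum_single n (fun _ => 4 * (n:ℝ)), if_pos (Nat.lt_succ_iff.mp c.1.isLt)]

theorem mass_ABC (c : Kp n) : mass (wp n) (Fp n 0 ⊓ Fp n 1 ⊓ Fp n 2) c = eF n c.2.2 c.1.val := by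
  classical
  have h := mass_path n (Fp n 0 ⊓ Fp n 1 ⊓ Fp n 2) c (fun i => if i = c.1.val then eF n c.2.2 i else 0) (by
    intro i
    have hrel : ∀ s t, (Fp n 0 ⊓ Fp n 1 ⊓ Fp n 2) (i, s, t) c ↔ (i.val = c.1.val ∧ t = c.2.2) := by
      intro s t
      show ((aF i.val = aF c.1.val ∧ bF i.val = bF c.1.val) ∧ t = c.2.2) ↔ _
      unfold aF bF
      rw [and_congr_left_iff]
      intro _
      omega
    simp only [hrel, Fintype.sum_bool]
    obtain ⟨i0, s0, t0⟩ := c
    cases t0 <;> simp only [and_true, and_false, reduceCtorEq, if_false, zero_add, add_zero] <;>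
      split_ifs <;> simp [wF, eF] <;> ring)
  rw [h, sum_single n (fun i => eF n c.2.2 i), if_pos (Nat.lt_succ_iff.mp c.1.isLt)]

theorem mass_ABD (c : Kp n) : mass (wp n) (Fp n 0 ⊓ Fp n 1 ⊓ Fp n 3) c = 2 * n := by
  classical
  have h := mass_path n (Fp n 0 ⊓ Fp n 1 ⊓ Fp n 3) c (fun i => if i = c.1.val then 2 * (n:ℝ) else 0) (by
    intro i
    have hrel : ∀ s t, (Fp n 0 ⊓ Fp n 1 ⊓ Fp n 3) (i, s, t) c ↔ (i.val = c.1.val ∧ s = c.2.1) := by
      intro s t
      show ((aF i.val = aF c.1.val ∧ bF i.val = bF c.1.val) ∧ dF i.val s = dF c.1.val c.2.1) ↔ _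
      unfold aF bF dF
      constructor
      · rintro ⟨h1, h2⟩
        have h3 : i.val = c.1.val := by omega
        refine ⟨h3, ?_⟩
        rw [h3] at h2
        cases s <;> cases hc : c.2.1 <;> simp_all
      · rintro ⟨h1, h2⟩
        rw [h1, h2]
        exact ⟨⟨rfl, rfl⟩, rfl⟩
    simp only [hrel, Fintype.sum_bool]
    obtain ⟨i0, s0, t0⟩ := c
    cases s0 <;> simp only [and_true, and_false, reduceCtorEq, if_false, zero_add, add_zero] <;>
      split_ifs <;> simp [wF] <;> ring)
  rw [h, sum_single n (fun _ => 2 * (n:ℝ)), if_pos (Nat.lt_succ_iff.mp c.1.isLt)]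

theorem mass_CD (c : Kp n) : mass (wp n) (Fp n 2 ⊓ Fp n 3) c =
    (if dF c.1.val c.2.1 ≤ n then wF n false c.2.2 (dF c.1.val c.2.1) else 0) +
    (if 1 ≤ dF c.1.val c.2.1 ∧ dF c.1.val c.2.1 ≤ n + 1 then
      wF n true c.2.2 (dF c.1.val c.2.1 - 1) else 0) := by
  classical
  have h := mass_path n (Fp n 2 ⊓ Fp n 3) c (fun i =>
    (if i = dF c.1.val c.2.1 then wF n false c.2.2 i else 0) +
    (if i + 1 = dF c.1.val c.2.1 then wF n true c.2.2 i else 0)) (by
    intro i
    have hrel : ∀ s t, (Fp n 2 ⊓ Fp n 3) (i, s, t) c ↔ (t = c.2.2 ∧ dF i.val s = dF c.1.val c.2.1) := by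
      intro s t
      exact Iff.rfl
    simp only [hrel, Fintype.sum_bool]
    obtain ⟨i0, s0, t0⟩ := c
    cases t0 <;> simp [dF, add_comm])
  rw [h, Finset.sum_add_distrib, sum_single n (fun i => wF n false c.2.2 i),
    sum_pred n (fun i => wF n true c.2.2 i)]

theorem mass_D (c : Kp n) (x : ℕ) (hx : x = dF c.1.val c.2.1) : mass (wp n) (Fp n 3) c =
    (if x ≤ n then 2 * (n:ℝ) else 0) + (if 1 ≤ x ∧ x ≤ n + 1 then 2 * (n:ℝ) else 0) := by
  classical
  have h := mass_path n (Fp n 3) c (fun i =>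
    (if i = x then 2 * (n:ℝ) else 0) + (if i + 1 = x then 2 * (n:ℝ) else 0)) (by
    intro i
    have hrel : ∀ s t, (Fp n 3) (i, s, t) c ↔ (dF i.val s = x) := by
      intro s t
      rw [hx]
      exact Iff.rfl
    simp only [hrel, Fintype.sum_bool]
    simp only [dF, if_true, Bool.false_eq_true, if_false]
    by_cases h1 : i.val = x
    · have h2 : ¬ i.val + 1 = x := by omega
      simp [h1, wF]
      try ring
    · by_cases h2 : i.val + 1 = x
      · simp [h1, h2, wF]
        try ring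
      · simp [h1, h2])
  rw [h, Finset.sum_add_distrib, sum_single n (fun _ => 2 * (n:ℝ)), sum_pred n (fun _ => 2 * (n:ℝ))]


theorem mass_AD_BD (c : Kp n) : mass (wp n) (Fp n 0 ⊓ Fp n 3) c * mass (wp n) (Fp n 1 ⊓ Fp n 3) c
    = 2 * n * mass (wp n) (Fp n 3) c := by
  classical
  have single : ∀ (E : Setoid (Kp n)), (∀ i s t, E (i, s, t) c ↔ (i.val = c.1.val ∧ s = c.2.1)) →
      mass (wp n) E c = 2 * n := by
    intro E hrel
    have h := mass_path n E c (fun i => if i = c.1.val then 2 * (n:ℝ) else 0) (by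
      intro i
      simp only [hrel, Fintype.sum_bool]
      obtain ⟨i0, s0, t0⟩ := c
      cases s0 <;> simp only [and_true, and_false, reduceCtorEq, if_false, zero_add, add_zero] <;>
        split_ifs <;> simp [wF]
      ring)
    rw [h, sum_single n (fun _ => 2 * (n:ℝ)), if_pos (Nat.lt_succ_iff.mp c.1.isLt)]
  have hd : dF c.1.val c.2.1 = c.1.val ∨ dF c.1.val c.2.1 = c.1.val + 1 := by
    unfold dF; split_ifs <;> simp
  have hdi : ∀ (i : ℕ) (s : Bool), (s = false ∧ dF i s = i) ∨ (s = true ∧ dF i s = i + 1) := by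
    intro i s; cases s <;> simp [dF]
  by_cases hcase : dF c.1.val c.2.1 = aF c.1.val
  · have e1 : Fp n 0 ⊓ Fp n 3 ≤ Fp n 3 := inf_le_right
    have m1 : mass (wp n) (Fp n 0 ⊓ Fp n 3) c = mass (wp n) (Fp n 3) c := by
      unfold mass
      refine Finset.sum_congr rfl (fun c' _ => ?_)
      have : (Fp n 0 ⊓ Fp n 3) c' c ↔ (Fp n 3) c' c := by
        show (aF c'.1.val = aF c.1.val ∧ dF c'.1.val c'.2.1 = dF c.1.val c.2.1) ↔
          dF c'.1.val c'.2.1 = dF c.1.val c.2.1
        constructor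
        · exact fun h => h.2
        · intro h
          refine ⟨?_, h⟩
          rw [hcase] at h
          have := hdi c'.1.val c'.2.1
          unfold aF at *
          omega
      simp only [this]
    have m2 := single (Fp n 1 ⊓ Fp n 3) (by
      intro i s t
      show (bF i.val = bF c.1.val ∧ dF i.val s = dF c.1.val c.2.1) ↔ _
      constructor
      · rintro ⟨h1, h2⟩
        have h3 : i.val = c.1.val := by
          rw [hcase] at h2
          have := hdi i.val s
          unfold aF at *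
          unfold bF at *
          omega
        refine ⟨h3, ?_⟩
        rw [h3] at h2
        exact dF_inj h2
      · rintro ⟨h1, h2⟩
        rw [h1, h2]
        exact ⟨rfl, rfl⟩)
    rw [m1, m2]
    ring
  · have hcase2 : dF c.1.val c.2.1 = bF c.1.val := by
      unfold aF at hcase
      unfold bF
      omega
    have m1 : mass (wp n) (Fp n 1 ⊓ Fp n 3) c = mass (wp n) (Fp n 3) c := by
      unfold mass
      refine Finset.sum_congr rfl (fun c' _ => ?_)
      have : (Fp n 1 ⊓ Fp n 3) c' c ↔ (Fp n 3) c' c := by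
        show (bF c'.1.val = bF c.1.val ∧ dF c'.1.val c'.2.1 = dF c.1.val c.2.1) ↔
          dF c'.1.val c'.2.1 = dF c.1.val c.2.1
        constructor
        · exact fun h => h.2
        · intro h
          refine ⟨?_, h⟩
          rw [hcase2] at h
          have := hdi c'.1.val c'.2.1
          unfold bF at *
          omega
      simp only [this]
    have m2 := single (Fp n 0 ⊓ Fp n 3) (by
      intro i s t
      show (aF i.val = aF c.1.val ∧ dF i.val s = dF c.1.val c.2.1) ↔ _
      constructor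
      · rintro ⟨h1, h2⟩
        have h3 : i.val = c.1.val := by
          rw [hcase2] at h2
          have := hdi i.val s
          unfold aF at *
          unfold bF at *
          omega
        refine ⟨h3, ?_⟩
        rw [h3] at h2
        exact dF_inj h2
      · rintro ⟨h1, h2⟩
        rw [h1, h2]
        exact ⟨rfl, rfl⟩)
    rw [m1, m2]

/-- masses as explicit functions -/
theorem sum_const_NF (hn : 1 ≤ n) (x : ℕ) (hx : x ≤ n + 1) :
    ∑ i : Fin (n + 1), (if i.val = x ∨ i.val + 1 = x then 4 * (n:ℝ) else 0) = NF n x := by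
  rw [sum_inc n (fun _ => 4 * (n:ℝ))]
  unfold NF
  by_cases h0 : x = 0
  · subst h0; simp
  · by_cases h1 : x = n + 1
    · subst h1; simp
    · rw [if_pos (by omega), if_pos (by omega), if_neg (by omega)]
      ring

theorem sum_NtF (hn : 1 ≤ n) (t : Bool) (x : ℕ) (hx : x ≤ n + 1) :
    ∑ i : Fin (n + 1), (if i.val = x ∨ i.val + 1 = x then eF n t i.val else 0) = NtF n t x := by
  rw [sum_inc n (fun i => eF n t i)]
  unfold NtF
  by_cases h0 : x = 0
  · subst h0; simp
  · by_cases h1 : x = n + 1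
    · subst h1; simp
    · rw [if_pos (by omega), if_pos (by omega), if_neg h0, if_neg h1]
      obtain ⟨y, rfl⟩ : ∃ y, x = y + 1 := ⟨x - 1, by omega⟩
      cases t <;> simp [eF, qF] <;> ring

theorem mass_CD' (hn : 1 ≤ n) (c : Kp n) :
    mass (wp n) (Fp n 2 ⊓ Fp n 3) c = DtF n c.2.2 (dF c.1.val c.2.1) := by
  have hx : dF c.1.val c.2.1 ≤ n + 1 := by
    have := c.1.isLt
    unfold dF; split_ifs <;> omega
  rw [mass_CD]
  unfold DtF
  by_cases h0 : dF c.1.val c.2.1 = 0
  · rw [h0]; cases c.2.2 <;> simp [wF]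
  · by_cases h1 : dF c.1.val c.2.1 = n + 1
    · rw [h1]
      cases c.2.2 <;> simp [wF] <;> ring
    · rw [if_pos (by omega), if_pos (by omega), if_neg (by omega)]
      obtain ⟨y, hy⟩ : ∃ y, dF c.1.val c.2.1 = y + 1 := ⟨dF c.1.val c.2.1 - 1, by omega⟩
      rw [hy]
      cases c.2.2 <;> simp [wF, qF] <;> ring

theorem mass_D' (hn : 1 ≤ n) (c : Kp n) :
    mass (wp n) (Fp n 3) c = DdF n (dF c.1.val c.2.1) := by
  have hx : dF c.1.val c.2.1 ≤ n + 1 := by
    have := c.1.isLt
    unfold dF; split_ifs <;> omega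
  rw [mass_D n c _ rfl]
  unfold DdF
  by_cases h0 : dF c.1.val c.2.1 = 0
  · rw [h0]; simp
  · by_cases h1 : dF c.1.val c.2.1 = n + 1
    · rw [h1]; simp
    · rw [if_pos (by omega), if_pos (by omega), if_neg (by omega)]
      ring

/-- pairs (even end, odd end) -/
theorem pair_sum (i : ℕ) (g : ℕ → ℝ) : g (aF i) + g (bF i) = g i + g (i + 1) := by
  rcases Nat.mod_two_eq_zero_or_one i with h | h
  · have h1 : aF i = i := by unfold aF; omega
    have h2 : bF i = i + 1 := by unfold bF; omega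
    rw [h1, h2]
  · have h1 : aF i = i + 1 := by unfold aF; omega
    have h2 : bF i = i := by unfold bF; omega
    rw [h1, h2, add_comm]

/-- bracket for the Ingleton expression -/
noncomputable def LPf (s t : Bool) (i : ℕ) : ℝ :=
  Real.log (eF n t i) + Real.log (DtF n t (dF i s)) + (Real.log (NF n i) + Real.log (NF n (i + 1)))
    - (Real.log (NtF n t i) + Real.log (NtF n t (i + 1))) - Real.log (DdF n (dF i s))
    - Real.log (4 * n)

/-- bracket for the conditional informations -/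
noncomputable def LTf (t : Bool) (i : ℕ) : ℝ :=
  2 * Real.log (eF n t i) + (Real.log (NF n i) + Real.log (NF n (i + 1)))
    - (Real.log (NtF n t i) + Real.log (NtF n t (i + 1))) - 2 * Real.log (4 * n)

theorem aF_le (c : Kp n) : aF c.1.val ≤ n + 1 := by
  have := c.1.isLt
  unfold aF; omega

theorem bF_le (c : Kp n) : bF c.1.val ≤ n + 1 := by
  have := c.1.isLt
  unfold bF; omega

theorem DdF_pos (hn : 1 ≤ n) (x : ℕ) : 0 < DdF n x := by
  have : (0:ℝ) < n := by exact_mod_cast hn
  unfold DdF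
  split_ifs <;> positivity

theorem ingl_path (hn : 1 ≤ n) : ingl (wp n) (Fp n 0) (Fp n 1) (Fp n 2) (Fp n 3)
    = ∑ c : Kp n, wp n c * LPf n c.2.1 c.2.2 c.1.val := by
  unfold ingl ent
  have hnr : (0:ℝ) < n := by exact_mod_cast hn
  have key : ∀ c : Kp n, wp n c * LPf n c.2.1 c.2.2 c.1.val =
      wp n c * Real.log (mass (wp n) (Fp n 0 ⊓ Fp n 1 ⊓ Fp n 2) c)
      + wp n c * Real.log (mass (wp n) (Fp n 0 ⊓ Fp n 1 ⊓ Fp n 3) c)
      + wp n c * Real.log (mass (wp n) (Fp n 2 ⊓ Fp n 3) c)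
      + wp n c * Real.log (mass (wp n) (Fp n 0) c)
      + wp n c * Real.log (mass (wp n) (Fp n 1) c)
      - wp n c * Real.log (mass (wp n) (Fp n 0 ⊓ Fp n 2) c)
      - wp n c * Real.log (mass (wp n) (Fp n 1 ⊓ Fp n 2) c)
      - wp n c * Real.log (mass (wp n) (Fp n 0 ⊓ Fp n 3) c)
      - wp n c * Real.log (mass (wp n) (Fp n 1 ⊓ Fp n 3) c)
      - wp n c * Real.log (mass (wp n) (Fp n 0 ⊓ Fp n 1) c) := by
    intro c
    have hprod := mass_AD_BD n c
    rw [mass_D' n hn] at hprod
    have hne : mass (wp n) (Fp n 0 ⊓ Fp n 3) c ≠ 0 ∧ mass (wp n) (Fp n 1 ⊓ Fp n 3) c ≠ 0 := by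
      have : mass (wp n) (Fp n 0 ⊓ Fp n 3) c * mass (wp n) (Fp n 1 ⊓ Fp n 3) c ≠ 0 := by
        rw [hprod]
        have := DdF_pos n hn (dF c.1.val c.2.1)
        positivity
      exact ⟨left_ne_zero_of_mul this, right_ne_zero_of_mul this⟩
    have hlog := congrArg Real.log hprod
    rw [Real.log_mul hne.1 hne.2, Real.log_mul (by positivity)
      (DdF_pos n hn _).ne'] at hlog
    rw [mass_ABC, mass_ABD, mass_CD' n hn, mass_A, mass_B, mass_AC, mass_BC, mass_AB,
      sum_const_NF n hn _ (aF_le n c), sum_const_NF n hn _ (bF_le n c),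
      sum_NtF n hn _ _ (aF_le n c), sum_NtF n hn _ _ (bF_le n c)]
    have p1 := pair_sum c.1.val (fun x => Real.log (NF n x))
    have p2 := pair_sum c.1.val (fun x => Real.log (NtF n c.2.2 x))
    unfold LPf
    rw [← p1, ← p2]
    linear_combination (wp n c) * hlog
  rw [Finset.sum_congr rfl (fun c _ => key c)]
  simp only [Finset.sum_sub_distrib, Finset.sum_add_distrib]
  ring

theorem cmi_path (hn : 1 ≤ n) :
    cmi (wp n) (Fp n 0) (Fp n 2) (Fp n 1) + cmi (wp n) (Fp n 1) (Fp n 2) (Fp n 0)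
    = ∑ c : Kp n, wp n c * LTf n c.2.2 c.1.val := by
  unfold cmi
  rw [lat2 (Fp n 0) (Fp n 1) (Fp n 2), lat3 (Fp n 0) (Fp n 1) (Fp n 2), inf_comm (Fp n 2) (Fp n 1),
    inf_comm (Fp n 1) (Fp n 0), inf_comm (Fp n 2) (Fp n 0)]
  unfold ent
  have hnr : (0:ℝ) < n := by exact_mod_cast hn
  have key : ∀ c : Kp n, wp n c * LTf n c.2.2 c.1.val =
      2 * (wp n c * Real.log (mass (wp n) (Fp n 0 ⊓ Fp n 1 ⊓ Fp n 2) c))
      + wp n c * Real.log (mass (wp n) (Fp n 0) c)
      + wp n c * Real.log (mass (wp n) (Fp n 1) c)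
      - wp n c * Real.log (mass (wp n) (Fp n 0 ⊓ Fp n 2) c)
      - wp n c * Real.log (mass (wp n) (Fp n 1 ⊓ Fp n 2) c)
      - 2 * (wp n c * Real.log (mass (wp n) (Fp n 0 ⊓ Fp n 1) c)) := by
    intro c
    rw [mass_ABC, mass_A, mass_B, mass_AC, mass_BC, mass_AB,
      sum_const_NF n hn _ (aF_le n c), sum_const_NF n hn _ (bF_le n c),
      sum_NtF n hn _ _ (aF_le n c), sum_NtF n hn _ _ (bF_le n c)]
    have p1 := pair_sum c.1.val (fun x => Real.log (NF n x))
    have p2 := pair_sum c.1.val (fun x => Real.log (NtF n c.2.2 x))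
    unfold LTf
    rw [← p1, ← p2]
    ring
  rw [Finset.sum_congr rfl (fun c _ => key c)]
  simp only [Finset.sum_sub_distrib, Finset.sum_add_distrib, ← Finset.mul_sum]
  ring

end

end TropProf
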