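import Pool.Agent.TropProf.Path

/-!
Estimates for the path example.
-/

open Finset

namespace TropProf

section
variable (n : ℕ)

theorem eF_pos (hn : 1 ≤ n) (t : Bool) (i : ℕ) (hi : i ≤ n) : 0 < eF n t i := by
  have h1 : (1:ℝ) ≤ n := by exact_mod_cast hn
  have h2 : (i:ℝ) ≤ n := by exact_mod_cast hi
  have h3 : (0:ℝ) ≤ i := Nat.cast_nonneg i
  cases t <;> simp only [eF, if_true, Bool.false_eq_true, if_false] <;> linarith

theorem qF_pos (hn : 1 ≤ n) (t : Bool) (i : ℕ) (hi : i ≤ n) (hi1 : 1 ≤ i) : 0 < qF n t i := by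
  have h1 : (1:ℝ) ≤ n := by exact_mod_cast hn
  have h2 : (i:ℝ) ≤ n := by exact_mod_cast hi
  have h3 : (1:ℝ) ≤ i := by exact_mod_cast hi1
  cases t <;> simp only [qF, if_true, Bool.false_eq_true, if_false] <;> linarith

theorem log_sub_le {x y : ℝ} (hx : 0 < x) (hy : 0 < y) : Real.log x - Real.log y ≤ (x - y) / y := by
  rw [← Real.log_div hx.ne' hy.ne']
  have := Real.log_le_sub_one_of_pos (div_pos hx hy)
  have h2 : x / y - 1 = (x - y) / y := by field_simp
  linarith

theorem log8 (hn : 1 ≤ n) : Real.log (8 * (n:ℝ)) = Real.log 2 + Real.log (4 * (n:ℝ)) := by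
  have h1 : (0:ℝ) < n := by exact_mod_cast hn
  rw [← Real.log_mul (by norm_num) (by positivity)]
  congr 1; ring

theorem log4 (hn : 1 ≤ n) : Real.log (4 * (n:ℝ)) = Real.log 2 + Real.log (2 * (n:ℝ)) := by
  have h1 : (0:ℝ) < n := by exact_mod_cast hn
  rw [← Real.log_mul (by norm_num) (by positivity)]
  congr 1; ring

theorem log2 (hn : 1 ≤ n) : Real.log (2 * (n:ℝ)) = Real.log 2 + Real.log (n:ℝ) := by
  have h1 : (0:ℝ) < n := by exact_mod_cast hn
  rw [← Real.log_mul (by norm_num) (by positivity)]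

/-- interior edges -/
theorem LP_mid (t s : Bool) (i : ℕ) (h1 : 1 ≤ i) (h2 : i + 1 ≤ n) :
    LPf n s t i = Real.log (eF n t i) - Real.log (qF n t (if s then i else i + 1)) := by
  have hn : 1 ≤ n := by omega
  have q1 := qF_pos n hn t i (by omega) h1
  have q2 := qF_pos n hn t (i + 1) h2 (by omega)
  unfold LPf NF NtF DtF DdF
  rw [if_neg (by omega : ¬ (i = 0 ∨ i = n + 1)), if_neg (by omega : ¬ (i + 1 = 0 ∨ i + 1 = n + 1)),
    if_neg (by omega : ¬ i = 0), if_neg (by omega : ¬ i = n + 1),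
    if_neg (by omega : ¬ i + 1 = 0), if_neg (by omega : ¬ i + 1 = n + 1),
    Real.log_mul (by norm_num : (2:ℝ) ≠ 0) q1.ne', Real.log_mul (by norm_num : (2:ℝ) ≠ 0) q2.ne', log8 n hn]
  cases s
  · have hd : dF i false = i := rfl
    rw [hd, if_neg (by omega : ¬ (i = 0 ∨ i = n + 1))]
    simp only [Bool.false_eq_true, if_false]
    rw [if_neg (by omega : ¬ (i = 0 ∨ i = n + 1))]
    ring
  · have hd : dF i true = i + 1 := rfl
    rw [hd, if_neg (by omega : ¬ (i + 1 = 0 ∨ i + 1 = n + 1))]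
    simp only [if_true]
    rw [if_neg (by omega : ¬ (i + 1 = 0 ∨ i + 1 = n + 1))]
    ring

theorem LT_mid (t : Bool) (i : ℕ) (h1 : 1 ≤ i) (h2 : i + 1 ≤ n) :
    LTf n t i = (Real.log (eF n t i) - Real.log (qF n t i))
      + (Real.log (eF n t i) - Real.log (qF n t (i + 1))) := by
  have hn : 1 ≤ n := by omega
  have q1 := qF_pos n hn t i (by omega) h1
  have q2 := qF_pos n hn t (i + 1) h2 (by omega)
  unfold LTf NF NtF
  rw [if_neg (by omega : ¬ (i = 0 ∨ i = n + 1)), if_neg (by omega : ¬ (i + 1 = 0 ∨ i + 1 = n + 1)),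
    if_neg (by omega : ¬ i = 0), if_neg (by omega : ¬ i = n + 1),
    if_neg (by omega : ¬ i + 1 = 0), if_neg (by omega : ¬ i + 1 = n + 1),
    Real.log_mul (by norm_num : (2:ℝ) ≠ 0) q1.ne', Real.log_mul (by norm_num : (2:ℝ) ≠ 0) q2.ne', log8 n hn]
  ring

theorem LP_zero_left (hn : 1 ≤ n) (t : Bool) :
    LPf n false t 0 = Real.log (2 * n) - Real.log (qF n t 1) := by
  have q1 := qF_pos n hn t 1 hn le_rfl
  have e1 := eF_pos n hn t 0 (Nat.zero_le _)
  unfold LPf NF NtF DtF DdF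
  have hd : dF 0 false = 0 := rfl
  rw [hd]
  simp only [true_or, if_true, zero_add]
  rw [if_neg (by omega : ¬ (1 = 0 ∨ 1 = n + 1)), if_neg (by omega : ¬ 1 = 0),
    if_neg (by omega : ¬ 1 = n + 1), Real.log_mul (by norm_num : (2:ℝ) ≠ 0) q1.ne', log8 n hn, log4 n hn,
    log2 n hn]
  ring

theorem LP_zero_right (hn : 1 ≤ n) (t : Bool) : LPf n true t 0 = 0 := by
  have q1 := qF_pos n hn t 1 hn le_rfl
  unfold LPf NF NtF DtF DdF
  have hd : dF 0 true = 1 := rfl
  rw [hd]
  simp only [true_or, if_true, zero_add]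
  rw [if_neg (by omega : ¬ (1 = 0 ∨ 1 = n + 1)), if_neg (by omega : ¬ (1 = 0 ∨ 1 = n + 1)),
    if_neg (by omega : ¬ (1 = 0 ∨ 1 = n + 1)), if_neg (by omega : ¬ 1 = 0),
    if_neg (by omega : ¬ 1 = n + 1), Real.log_mul (by norm_num : (2:ℝ) ≠ 0) q1.ne', log8 n hn]
  ring

theorem LT_zero (hn : 1 ≤ n) (t : Bool) :
    LTf n t 0 = Real.log (eF n t 0) - Real.log (qF n t 1) := by
  have q1 := qF_pos n hn t 1 hn le_rfl
  unfold LTf NF NtF
  simp only [true_or, if_true, zero_add]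
  rw [if_neg (by omega : ¬ (1 = 0 ∨ 1 = n + 1)), if_neg (by omega : ¬ 1 = 0),
    if_neg (by omega : ¬ 1 = n + 1), Real.log_mul (by norm_num : (2:ℝ) ≠ 0) q1.ne', log8 n hn]
  ring

theorem LP_last_left (hn : 1 ≤ n) (t : Bool) : LPf n false t n = 0 := by
  have q1 := qF_pos n hn t n le_rfl hn
  unfold LPf NF NtF DtF DdF
  have hd : dF n false = n := rfl
  rw [hd]
  simp only [or_true, if_true]
  rw [if_neg (by omega : ¬ (n = 0 ∨ n = n + 1)), if_neg (by omega : ¬ (n = 0 ∨ n = n + 1)),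
    if_neg (by omega : ¬ (n = 0 ∨ n = n + 1)), if_neg (by omega : ¬ n = 0),
    if_neg (by omega : ¬ n = n + 1), if_neg (by omega : ¬ n + 1 = 0),
    Real.log_mul (by norm_num : (2:ℝ) ≠ 0) q1.ne', log8 n hn]
  ring

theorem LP_last_right (hn : 1 ≤ n) (t : Bool) :
    LPf n true t n = Real.log (2 * n) - Real.log (qF n t n) := by
  have q1 := qF_pos n hn t n le_rfl hn
  unfold LPf NF NtF DtF DdF
  have hd : dF n true = n + 1 := rfl
  rw [hd]
  simp only [or_true, if_true]
  rw [if_neg (by omega : ¬ (n = 0 ∨ n = n + 1)), if_neg (by omega : ¬ n = 0),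
    if_neg (by omega : ¬ n = n + 1), if_neg (by omega : ¬ n + 1 = 0),
    Real.log_mul (by norm_num : (2:ℝ) ≠ 0) q1.ne', log8 n hn, log4 n hn, log2 n hn]
  ring

theorem LT_last (hn : 1 ≤ n) (t : Bool) :
    LTf n t n = Real.log (eF n t n) - Real.log (qF n t n) := by
  have q1 := qF_pos n hn t n le_rfl hn
  unfold LTf NF NtF
  simp only [or_true, if_true]
  rw [if_neg (by omega : ¬ (n = 0 ∨ n = n + 1)), if_neg (by omega : ¬ n = 0),
    if_neg (by omega : ¬ n = n + 1), if_neg (by omega : ¬ n + 1 = 0),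
    Real.log_mul (by norm_num : (2:ℝ) ≠ 0) q1.ne', log8 n hn]
  ring

noncomputable def PT (i : ℕ) : ℝ := ∑ s : Bool, ∑ t : Bool, wF n s t i * LPf n s t i
noncomputable def TT (i : ℕ) : ℝ := ∑ s : Bool, ∑ t : Bool, wF n s t i * LTf n t i

theorem end_bound (hn : 1 ≤ n) :
    (n:ℝ) * (Real.log (2 * n) - Real.log (n + 1)) + n * (Real.log (2 * n) - Real.log (3 * n - 1)) ≤ n / 3 := by
  have h1 : (1:ℝ) ≤ n := by exact_mod_cast hn
  have h2 : (0:ℝ) < 3 * n - 1 := by linarith
  have h3 : (0:ℝ) < n + 1 := by linarith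
  have e : Real.log (2 * n) - Real.log (n + 1) + (Real.log (2 * n) - Real.log (3 * n - 1))
      = Real.log ((2 * n) * (2 * n)) - Real.log ((n + 1) * (3 * n - 1)) := by
    have h6 : (2 * (n:ℝ)) ≠ 0 := by positivity
    rw [Real.log_mul h6 h6, Real.log_mul h3.ne' h2.ne']
    ring
  have h4 := log_sub_le (x := (2 * n) * (2 * n)) (y := (n + 1) * (3 * n - 1)) (by positivity)
    (mul_pos h3 h2)
  have h5 : ((2 * n) * (2 * n) - (n + 1) * (3 * n - 1)) / ((n + 1) * (3 * (n:ℝ) - 1)) ≤ 1 / 3 := by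
    rw [div_le_div_iff₀ (mul_pos h3 h2) (by norm_num)]
    nlinarith
  rw [← mul_add, e]
  calc (n:ℝ) * _ ≤ n * (1 / 3) := mul_le_mul_of_nonneg_left (h4.trans h5) (by linarith)
    _ = n / 3 := by ring

theorem PT_zero (hn : 1 ≤ n) : PT n 0 ≤ n / 3 := by
  have h := end_bound n hn
  unfold PT
  simp only [Fintype.sum_bool, LP_zero_left n hn, LP_zero_right n hn, mul_zero, add_zero, zero_add]
  have e1 : wF n false true 0 = n := by simp [wF]
  have e2 : wF n false false 0 = n := by simp [wF]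
  have e3 : qF n true 1 = n + 1 := by simp [qF]; ring
  have e4 : qF n false 1 = 3 * n - 1 := by simp [qF]; ring
  rw [e1, e2, e3, e4]
  exact h

theorem PT_last (hn : 1 ≤ n) : PT n n ≤ n / 3 := by
  have h := end_bound n hn
  unfold PT
  simp only [Fintype.sum_bool, LP_last_left n hn, LP_last_right n hn, mul_zero, add_zero]
  have e1 : wF n true true n = n := by simp [wF]
  have e2 : wF n true false n = n := by simp [wF]; ring
  have e3 : qF n true n = 3 * n - 1 := by simp [qF]; ring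
  have e4 : qF n false n = n + 1 := by simp [qF]; ring
  rw [e1, e2, e3, e4]
  linarith

theorem PT_mid (i : ℕ) (h1 : 1 ≤ i) (h2 : i + 1 ≤ n) :
    PT n i ≤ -((n:ℝ) - 1) * (2 / (2 * n + 1)) := by
  have hn : 1 ≤ n := by omega
  have r1 : (1:ℝ) ≤ i := by exact_mod_cast h1
  have r2 : (i:ℝ) + 1 ≤ n := by exact_mod_cast h2
  unfold PT
  simp only [Fintype.sum_bool, LP_mid n _ _ i h1 h2, if_true, Bool.false_eq_true, if_false]
  have a1 := log_sub_le (eF_pos n hn true i (by omega)) (qF_pos n hn true (i + 1) h2 (by omega))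
  have a2 := log_sub_le (eF_pos n hn false i (by omega)) (qF_pos n hn false (i + 1) h2 (by omega))
  have a3 := log_sub_le (eF_pos n hn true i (by omega)) (qF_pos n hn true i (by omega) h1)
  have a4 := log_sub_le (eF_pos n hn false i (by omega)) (qF_pos n hn false i (by omega) h1)
  have e1 : (eF n true i - qF n true (i + 1)) / qF n true (i + 1) = -1 / (n + 2 * i + 1) := by
    simp [eF, qF]; ring_nf
  have e2 : (eF n false i - qF n false (i + 1)) / qF n false (i + 1) = 1 / (3 * n - 2 * i - 1) := by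
    simp [eF, qF]; ring_nf
  have e3 : (eF n true i - qF n true i) / qF n true i = 1 / (n + 2 * i - 1) := by
    simp [eF, qF]
  have e4 : (eF n false i - qF n false i) / qF n false i = -1 / (3 * n - 2 * i + 1) := by
    simp [eF, qF]
  rw [e1] at a1
  rw [e2] at a2
  rw [e3] at a3
  rw [e4] at a4
  have w1 : wF n false true i = n + i := rfl
  have w2 : wF n false false i = n - i := rfl
  have w3 : wF n true true i = i := rfl
  have w4 : wF n true false i = 2 * n - i := rfl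
  rw [w1, w2, w3, w4]
  have b1 := mul_le_mul_of_nonneg_left a1 (by linarith : (0:ℝ) ≤ n + i)
  have b2 := mul_le_mul_of_nonneg_left a2 (by linarith : (0:ℝ) ≤ n - i)
  have b3 := mul_le_mul_of_nonneg_left a3 (by linarith : (0:ℝ) ≤ i)
  have b4 := mul_le_mul_of_nonneg_left a4 (by linarith : (0:ℝ) ≤ 2 * n - i)
  have p1 : (0:ℝ) < n + 2 * i + 1 := by linarith
  have p2 : (0:ℝ) < 3 * n - 2 * i - 1 := by linarith
  have p3 : (0:ℝ) < n + 2 * i - 1 := by linarith
  have p4 : (0:ℝ) < 3 * n - 2 * i + 1 := by linarith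
  have c3 : (i:ℝ) * (1 / (n + 2 * i - 1)) ≤ (i + 1) * (1 / (n + 2 * i + 1)) := by
    rw [mul_one_div, mul_one_div, div_le_div_iff₀ p3 p1]
    nlinarith
  have c2 : ((n:ℝ) - i) * (1 / (3 * n - 2 * i - 1)) ≤ (n - i + 1) * (1 / (3 * n - 2 * i + 1)) := by
    rw [mul_one_div, mul_one_div, div_le_div_iff₀ p2 p4]
    nlinarith
  have c5 : 2 / (2 * (n:ℝ) + 1) ≤ 1 / (n + 2 * i + 1) + 1 / (3 * n - 2 * i + 1) := by
    rw [div_add_div _ _ p1.ne' p4.ne', div_le_div_iff₀ (by positivity) (mul_pos p1 p4)]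
    nlinarith [sq_nonneg ((n:ℝ) + 2 * i + 1 - (3 * n - 2 * i + 1))]
  have c6 := mul_le_mul_of_nonneg_left c5 (by linarith : (0:ℝ) ≤ n - 1)
  have d1 : ((n:ℝ) + i) * (-1 / (n + 2 * i + 1)) = -((n + i) * (1 / (n + 2 * i + 1))) := by ring
  have d4 : (2 * (n:ℝ) - i) * (-1 / (3 * n - 2 * i + 1)) = -((2 * n - i) * (1 / (3 * n - 2 * i + 1))) := by
    ring
  rw [d1] at b1
  rw [d4] at b4
  have k1 := b3.trans c3
  have k2 := b2.trans c2
  clear a1 a2 a3 a4 b2 b3 c2 c3 c5
  linarith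

theorem TT_mid (i : ℕ) (h1 : 1 ≤ i) (h2 : i + 1 ≤ n) : TT n i ≤ 8 / n := by
  have hn : 1 ≤ n := by omega
  have r1 : (1:ℝ) ≤ i := by exact_mod_cast h1
  have r2 : (i:ℝ) + 1 ≤ n := by exact_mod_cast h2
  unfold TT
  simp only [Fintype.sum_bool, LT_mid n _ i h1 h2]
  have a1 := log_sub_le (eF_pos n hn true i (by omega)) (qF_pos n hn true (i + 1) h2 (by omega))
  have a2 := log_sub_le (eF_pos n hn false i (by omega)) (qF_pos n hn false (i + 1) h2 (by omega))
  have a3 := log_sub_le (eF_pos n hn true i (by omega)) (qF_pos n hn true i (by omega) h1)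
  have a4 := log_sub_le (eF_pos n hn false i (by omega)) (qF_pos n hn false i (by omega) h1)
  have e1 : (eF n true i - qF n true (i + 1)) / qF n true (i + 1) = -1 / (n + 2 * i + 1) := by
    simp [eF, qF]; ring_nf
  have e2 : (eF n false i - qF n false (i + 1)) / qF n false (i + 1) = 1 / (3 * n - 2 * i - 1) := by
    simp [eF, qF]; ring_nf
  have e3 : (eF n true i - qF n true i) / qF n true i = 1 / (n + 2 * i - 1) := by
    simp [eF, qF]
  have e4 : (eF n false i - qF n false i) / qF n false i = -1 / (3 * n - 2 * i + 1) := by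
    simp [eF, qF]
  rw [e1] at a1
  rw [e2] at a2
  rw [e3] at a3
  rw [e4] at a4
  have w1 : wF n false true i = n + i := rfl
  have w2 : wF n false false i = n - i := rfl
  have w3 : wF n true true i = i := rfl
  have w4 : wF n true false i = 2 * n - i := rfl
  rw [w1, w2, w3, w4]
  have p1 : (0:ℝ) < n + 2 * i + 1 := by linarith
  have p2 : (0:ℝ) < 3 * n - 2 * i - 1 := by linarith
  have p3 : (0:ℝ) < n + 2 * i - 1 := by linarith
  have p4 : (0:ℝ) < 3 * n - 2 * i + 1 := by linarith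
  have hn0 : (0:ℝ) < n := by linarith
  have b1 := mul_le_mul_of_nonneg_left (add_le_add a3 a1) (by linarith : (0:ℝ) ≤ n + 2 * i)
  have b2 := mul_le_mul_of_nonneg_left (add_le_add a4 a2) (by linarith : (0:ℝ) ≤ 3 * n - 2 * i)
  have c1 : ((n:ℝ) + 2 * i) * (1 / (n + 2 * i - 1) + -1 / (n + 2 * i + 1)) ≤ 4 / n := by
    have : 1 / ((n:ℝ) + 2 * i - 1) + -1 / (n + 2 * i + 1) = 2 / ((n + 2 * i - 1) * (n + 2 * i + 1)) := by
      field_simp
      ring
    rw [this, mul_div_assoc', div_le_div_iff₀ (mul_pos p3 p1) hn0]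
    nlinarith
  have c2 : (3 * (n:ℝ) - 2 * i) * (-1 / (3 * n - 2 * i + 1) + 1 / (3 * n - 2 * i - 1)) ≤ 4 / n := by
    have : -1 / (3 * (n:ℝ) - 2 * i + 1) + 1 / (3 * n - 2 * i - 1)
        = 2 / ((3 * n - 2 * i + 1) * (3 * n - 2 * i - 1)) := by
      have := p2.ne'
      have := p4.ne'
      field_simp
      ring
    rw [this, mul_div_assoc', div_le_div_iff₀ (mul_pos p4 p2) hn0]
    nlinarith
  have c3 : (8:ℝ) / n = 4 / n + 4 / n := by ring
  rw [c3]
  linarith

theorem TT_zero (hn : 1 ≤ n) : TT n 0 ≤ 2 := by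
  have r1 : (1:ℝ) ≤ n := by exact_mod_cast hn
  unfold TT
  simp only [Fintype.sum_bool, LT_zero n hn]
  have a1 := log_sub_le (eF_pos n hn true 0 (by omega)) (qF_pos n hn true 1 hn le_rfl)
  have a2 := log_sub_le (eF_pos n hn false 0 (by omega)) (qF_pos n hn false 1 hn le_rfl)
  have e1 : (eF n true 0 - qF n true 1) / qF n true 1 = -1 / (n + 1) := by
    simp [eF, qF]; ring_nf
  have e2 : (eF n false 0 - qF n false 1) / qF n false 1 = 1 / (3 * n - 1) := by
    simp [eF, qF]; ring_nf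
  rw [e1] at a1
  rw [e2] at a2
  have w1 : wF n false true 0 = n := by simp [wF]
  have w2 : wF n false false 0 = n := by simp [wF]
  have w3 : wF n true true 0 = 0 := by simp [wF]
  have w4 : wF n true false 0 = 2 * n := by simp [wF]
  rw [w1, w2, w3, w4]
  have b1 : (n:ℝ) * (Real.log (eF n true 0) - Real.log (qF n true 1)) ≤ 0 := by
    have : Real.log (eF n true 0) - Real.log (qF n true 1) ≤ 0 := by
      refine a1.trans ?_
      apply div_nonpos_of_nonpos_of_nonneg <;> linarith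
    nlinarith
  have b2 := mul_le_mul_of_nonneg_left a2 (by linarith : (0:ℝ) ≤ 3 * n)
  have c2 : 3 * (n:ℝ) * (1 / (3 * n - 1)) ≤ 2 := by
    rw [mul_one_div, div_le_iff₀ (by linarith)]
    linarith
  linarith

theorem TT_last (hn : 1 ≤ n) : TT n n ≤ 2 := by
  have r1 : (1:ℝ) ≤ n := by exact_mod_cast hn
  unfold TT
  simp only [Fintype.sum_bool, LT_last n hn]
  have a1 := log_sub_le (eF_pos n hn true n le_rfl) (qF_pos n hn true n le_rfl hn)
  have a2 := log_sub_le (eF_pos n hn false n le_rfl) (qF_pos n hn false n le_rfl hn)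
  have e1 : (eF n true n - qF n true n) / qF n true n = 1 / (3 * n - 1) := by
    simp [eF, qF]; ring_nf
  have e2 : (eF n false n - qF n false n) / qF n false n = -1 / (n + 1) := by
    simp [eF, qF]; ring_nf
  rw [e1] at a1
  rw [e2] at a2
  have w1 : wF n false true n = 2 * n := by simp [wF]; ring
  have w2 : wF n false false n = 0 := by simp [wF]
  have w3 : wF n true true n = n := by simp [wF]
  have w4 : wF n true false n = n := by simp [wF]; ring
  rw [w1, w2, w3, w4]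
  have b1 : (n:ℝ) * (Real.log (eF n false n) - Real.log (qF n false n)) ≤ 0 := by
    have : Real.log (eF n false n) - Real.log (qF n false n) ≤ 0 := by
      refine a2.trans ?_
      apply div_nonpos_of_nonpos_of_nonneg <;> linarith
    nlinarith
  have b2 := mul_le_mul_of_nonneg_left a1 (by linarith : (0:ℝ) ≤ 3 * n)
  have c2 : 3 * (n:ℝ) * (1 / (3 * n - 1)) ≤ 2 := by
    rw [mul_one_div, div_le_iff₀ (by linarith)]
    linarith
  linarith

theorem sum_cells (f : Bool → Bool → ℕ → ℝ) :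
    ∑ c : Kp n, f c.2.1 c.2.2 c.1.val = ∑ i ∈ Finset.range (n + 1), ∑ s : Bool, ∑ t : Bool, f s t i := by
  rw [Fintype.sum_prod_type, ← Fin.sum_univ_eq_sum_range (fun i => ∑ s : Bool, ∑ t : Bool, f s t i)]
  refine Finset.sum_congr rfl (fun i _ => ?_)
  rw [Fintype.sum_prod_type]

theorem ingl_bound (hn : 1 ≤ n) :
    ingl (wp n) (Fp n 0) (Fp n 1) (Fp n 2) (Fp n 3) ≤ 5 / 2 - n / 3 := by
  rw [ingl_path n hn]
  have e : ∑ c : Kp n, wp n c * LPf n c.2.1 c.2.2 c.1.val = ∑ i ∈ Finset.range (n + 1), PT n i := by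
    rw [Finset.sum_congr rfl (fun c _ => by rw [wp_eq])]
    exact sum_cells n (fun s t i => wF n s t i * LPf n s t i)
  rw [e]
  obtain ⟨k, rfl⟩ : ∃ k, n = k + 1 := ⟨n - 1, by omega⟩
  rw [Finset.sum_range_succ, Finset.sum_range_succ']
  have h0 := PT_zero (k + 1) hn
  have h1 := PT_last (k + 1) hn
  have hm : ∑ i ∈ Finset.range k, PT (k + 1) (i + 1)
      ≤ ∑ _i ∈ Finset.range k, (-(((k + 1 : ℕ) : ℝ) - 1) * (2 / (2 * ((k + 1 : ℕ) : ℝ) + 1))) := by
    refine Finset.sum_le_sum (fun i hi => ?_)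
    have := Finset.mem_range.mp hi
    exact PT_mid (k + 1) (i + 1) (by omega) (by omega)
  rw [Finset.sum_const, Finset.card_range, nsmul_eq_mul] at hm
  have hk : (0:ℝ) ≤ k := Nat.cast_nonneg k
  push_cast at *
  have h5 : (k:ℝ) * (-(k + 1 - 1) * (2 / (2 * (k + 1) + 1))) ≤ -(k + 1) + 5 / 2 := by
    have : (k:ℝ) * (-(k + 1 - 1) * (2 / (2 * (k + 1) + 1))) = -(2 * k ^ 2) / (2 * (k + 1) + 1) := by
      ring
    rw [this, div_le_iff₀ (by positivity)]
    nlinarith
  linarith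

theorem cmi_bound (hn : 1 ≤ n) :
    cmi (wp n) (Fp n 0) (Fp n 2) (Fp n 1) + cmi (wp n) (Fp n 1) (Fp n 2) (Fp n 0) ≤ 12 := by
  rw [cmi_path n hn]
  have e : ∑ c : Kp n, wp n c * LTf n c.2.2 c.1.val = ∑ i ∈ Finset.range (n + 1), TT n i := by
    rw [Finset.sum_congr rfl (fun c _ => by rw [wp_eq])]
    exact sum_cells n (fun s t i => wF n s t i * LTf n t i)
  rw [e]
  obtain ⟨k, rfl⟩ : ∃ k, n = k + 1 := ⟨n - 1, by omega⟩
  rw [Finset.sum_range_succ, Finset.sum_range_succ']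
  have h0 := TT_zero (k + 1) hn
  have h1 := TT_last (k + 1) hn
  have hm : ∑ i ∈ Finset.range k, TT (k + 1) (i + 1)
      ≤ ∑ _i ∈ Finset.range k, (8 / ((k + 1 : ℕ) : ℝ)) := by
    refine Finset.sum_le_sum (fun i hi => ?_)
    have := Finset.mem_range.mp hi
    exact TT_mid (k + 1) (i + 1) (by omega) (by omega)
  rw [Finset.sum_const, Finset.card_range, nsmul_eq_mul] at hm
  have hk : (0:ℝ) ≤ k := Nat.cast_nonneg k
  push_cast at *
  have h5 : (k:ℝ) * (8 / (k + 1)) ≤ 8 := by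
    rw [mul_div_assoc', div_le_iff₀ (by positivity)]
    linarith
  linarith

end

/-- for every `C` some weighted path system violates the inequality with constant `C` -/
theorem exists_path (C : ℝ) (hC : 0 ≤ C) : ∃ n : ℕ,
    ingl (wp n) (Fp n 0) (Fp n 1) (Fp n 2) (Fp n 3)
      + C * (cmi (wp n) (Fp n 0) (Fp n 2) (Fp n 1) + cmi (wp n) (Fp n 1) (Fp n 2) (Fp n 0)) < 0 := by
  obtain ⟨n, hn⟩ := exists_nat_gt (36 * C + 8)
  have hn1 : 1 ≤ n := by
    by_contra h
    push Not at h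
    have : n = 0 := by omega
    rw [this] at hn
    simp at hn
    linarith
  refine ⟨n, ?_⟩
  have h1 := ingl_bound n hn1
  have h2 := mul_le_mul_of_nonneg_left (cmi_bound n hn1) hC
  linarith

end TropProf
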