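import Pool.Agent.TropProf.Rig

/-!
Systems of partitions of a symmetric group: they realise, in the limit, the entropies of arbitrary
finite systems of partitions with integer weights.
-/

open scoped Classical
open Finset Filter Topology

namespace TropProf

section
variable {κ : Type} [Fintype κ] (m : κ → ℕ) (L : ℕ) (F : Fin 4 → Setoid κ)

/-- `L * m c` points in the cell `c` -/
abbrev OmL : Type := Σ c : κ, Fin (L * m c)

/-- the partition of the permutations -/
def EP (T : Setoid κ) : Setoid (Equiv.Perm (OmL m L)) where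
  r σ τ := ∀ ω, T (σ ω).1 (τ ω).1
  iseqv := ⟨fun _ _ => T.refl _, fun h ω => T.symm (h ω), fun h1 h2 ω => T.trans (h1 ω) (h2 ω)⟩

/-- the size of a class -/
noncomputable def DL (T : Setoid κ) : ℝ :=
  ∏ q : Quotient T, ((L * ∑ c, (if Quotient.mk T c = q then m c else 0)).factorial : ℝ)

theorem DL_pos (T : Setoid κ) : 0 < DL m L T :=
  Finset.prod_pos (fun _ _ => by exact_mod_cast Nat.factorial_pos _)

theorem dg_EP (T : Setoid κ) (σ : Equiv.Perm (OmL m L)) : dg (EP m L T) σ = DL m L T := by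
  rw [dg_card]
  let g : OmL m L → Quotient T := fun ω => Quotient.mk T ω.1
  have e : {σ' : Equiv.Perm (OmL m L) // (EP m L T) σ' σ} ≃ {τ : Equiv.Perm (OmL m L) // g ∘ τ = g} := by
    refine ⟨fun x => ⟨x.1 * σ⁻¹, ?_⟩, fun x => ⟨x.1 * σ, ?_⟩, ?_, ?_⟩
    · funext ω
      have h := x.2 (σ⁻¹ ω)
      have e1 : σ (σ⁻¹ ω) = ω := σ.apply_symm_apply ω
      rw [e1] at h
      exact Quotient.sound h
    · intro ω
      have h := congrFun x.2 (σ ω)
      exact Quotient.exact h
    · intro x
      apply Subtype.ext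
      simp
    · intro x
      apply Subtype.ext
      simp
  rw [Nat.card_congr e, Nat.card_eq_fintype_card, DomMulAct.stabilizer_card]
  unfold DL
  push_cast
  refine Finset.prod_congr rfl (fun q _ => ?_)
  congr 2
  rw [Fintype.card_subtype, Finset.mul_sum]
  have h1 : (Finset.univ.filter (fun ω : OmL m L => g ω = q)).card
      = ∑ ω : OmL m L, (if Quotient.mk T ω.1 = q then 1 else 0) := by
    rw [Finset.card_filter]
  rw [h1, Fintype.sum_sigma]
  refine Finset.sum_congr rfl (fun c _ => ?_)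
  split_ifs <;> simp

omit [Fintype κ] in
theorem EP_inf (s : Fin 10) : ES (fun x => EP m L (F x)) s = EP m L (ES F s) := by
  ext σ τ
  unfold ES
  rw [inf_rel]
  constructor
  · intro h ω
    rw [inf_rel]
    exact fun x hx => h x hx ω
  · intro h x hx ω
    exact (inf_rel _ _ _ _).mp (h ω) x hx

/-- coordinates of the permutation system -/
theorem hL_perm (s : Fin 10) :
    hL s (fun i => Real.log (Y (fun x => EP m L (F x)) i))
      = yB (Equiv.Perm (OmL m L)) - Real.log (DL m L (ES F s)) := by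
  rw [hL_apply, Y_zero, Y_pw]
  unfold yS
  rw [EP_inf]
  simp only [dg_EP]
  have h1 : ∑ _r : Equiv.Perm (OmL m L), DL m L (ES F s) ^ KK s
      = (∑ _r : Equiv.Perm (OmL m L), (1:ℝ)) * DL m L (ES F s) ^ KK s := by
    rw [Finset.sum_mul]; simp
  have hpos : 0 < ∑ _r : Equiv.Perm (OmL m L), (1:ℝ) :=
    Finset.sum_pos (fun _ _ => one_pos) Finset.univ_nonempty
  rw [h1, Real.log_mul hpos.ne' (pow_pos (DL_pos _ _ _) _).ne', Real.log_pow]
  have hK : (KK s : ℝ) ≠ 0 := by exact_mod_cast (KK_pos s).ne'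
  unfold yB
  field_simp
  ring

theorem JL_perm : JL (fun i => Real.log (Y (fun x => EP m L (F x)) i)) = 0 := by
  rw [JL_apply]
  have hpos : 0 < ∑ _r : Equiv.Perm (OmL m L), (1:ℝ) :=
    Finset.sum_pos (fun _ _ => one_pos) Finset.univ_nonempty
  have h1 : ∀ s, Real.log (Y (fun x => EP m L (F x)) (pw s)) / KK s
      = (1 / (KK s : ℝ)) * yB (Equiv.Perm (OmL m L)) + Real.log (DL m L (ES F s)) := by
    intro s
    rw [Y_pw]
    unfold yS
    rw [EP_inf]
    simp only [dg_EP]
    have h1 : ∑ _r : Equiv.Perm (OmL m L), DL m L (ES F s) ^ KK s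
        = (∑ _r : Equiv.Perm (OmL m L), (1:ℝ)) * DL m L (ES F s) ^ KK s := by
      rw [Finset.sum_mul]; simp
    rw [h1, Real.log_mul hpos.ne' (pow_pos (DL_pos _ _ _) _).ne', Real.log_pow]
    have hK : (KK s : ℝ) ≠ 0 := by exact_mod_cast (KK_pos s).ne'
    unfold yB
    field_simp
  have h2 : Real.log (Y (fun x => EP m L (F x)) 1)
      = yB (Equiv.Perm (OmL m L)) + ∑ s, Real.log (DL m L (ES F s)) := by
    rw [Y_one]
    unfold yZ wt
    have h3 : ∀ r, ∏ s, dg (ES (fun x => EP m L (F x)) s) r = ∏ s, DL m L (ES F s) := by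
      intro r
      refine Finset.prod_congr rfl (fun s _ => ?_)
      rw [EP_inf, dg_EP]
    simp only [h3]
    have h4 : ∑ _r : Equiv.Perm (OmL m L), ∏ s, DL m L (ES F s)
        = (∑ _r : Equiv.Perm (OmL m L), (1:ℝ)) * ∏ s, DL m L (ES F s) := by
      rw [Finset.sum_mul]; simp
    rw [h4, Real.log_mul hpos.ne' (Finset.prod_pos (fun s _ => DL_pos _ _ _)).ne',
      Real.log_prod (fun s _ => (DL_pos _ _ _).ne')]
    rfl
  simp only [h1, h2, Finset.sum_add_distrib, ← Finset.sum_mul]
  rw [Y_zero]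
  ring

end

/-- the basic limit -/
theorem fact_limit (M : ℕ) :
    Tendsto (fun L : ℕ => Real.log ((L * M).factorial : ℝ) / L - M * (Real.log L - 1)) atTop
      (𝓝 ((M : ℝ) * Real.log M)) := by
  rcases Nat.eq_zero_or_pos M with rfl | hM
  · simp
  · have hMr : (0:ℝ) < M := by exact_mod_cast hM
    have h1 : Tendsto (fun L : ℕ => L * M) atTop atTop :=
      tendsto_atTop_mono (fun L => Nat.le_mul_of_pos_right L hM) tendsto_id
    have h2 : Tendsto (fun L : ℕ => Real.log (Stirling.stirlingSeq (L * M))) atTop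
        (𝓝 (Real.log (√Real.pi))) :=
      (Stirling.tendsto_stirlingSeq_sqrt_pi.comp h1).log (by positivity)
    have h3 : Tendsto (fun L : ℕ => Real.log (Stirling.stirlingSeq (L * M)) / L) atTop (𝓝 0) :=
      h2.div_atTop tendsto_natCast_atTop_atTop
    have h4 : Tendsto (fun L : ℕ => Real.log (L:ℝ) / L) atTop (𝓝 0) := by
      have := (Real.isLittleO_log_id_atTop).tendsto_div_nhds_zero
      exact this.comp tendsto_natCast_atTop_atTop
    have h5 : Tendsto (fun L : ℕ => Real.log (2 * M) / (L:ℝ)) atTop (𝓝 0) :=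
      tendsto_const_nhds.div_atTop tendsto_natCast_atTop_atTop
    have h6 : Tendsto (fun L : ℕ => M * Real.log M + (1 / 2) * (Real.log (2 * M) / (L:ℝ))
        + (1 / 2) * (Real.log (L:ℝ) / L) + Real.log (Stirling.stirlingSeq (L * M)) / L) atTop
        (𝓝 (M * Real.log M + (1 / 2) * 0 + (1 / 2) * 0 + 0)) :=
      ((tendsto_const_nhds.add (h5.const_mul _)).add (h4.const_mul _)).add h3
    simp only [mul_zero, add_zero] at h6
    refine h6.congr' ?_
    filter_upwards [eventually_gt_atTop 0] with L hL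
    have hLr : (0:ℝ) < L := by exact_mod_cast hL
    have hf := Stirling.log_stirlingSeq_formula (L * M)
    have e1 : Real.log (((L * M : ℕ) : ℝ) / Real.exp 1) = Real.log L + Real.log M - 1 := by
      rw [Nat.cast_mul, Real.log_div (by positivity) (Real.exp_pos _).ne', Real.log_exp,
        Real.log_mul hLr.ne' hMr.ne']
    have e2 : Real.log (2 * ((L * M : ℕ) : ℝ)) = Real.log (2 * M) + Real.log L := by
      rw [Nat.cast_mul, ← Real.log_mul (by positivity) hLr.ne']
      congr 1; ring
    rw [e1, e2, Nat.cast_mul] at hf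
    rw [hf]
    field_simp
    ring

section
variable {κ : Type} [Fintype κ] (m : κ → ℕ) (F : Fin 4 → Setoid κ)

/-- `∑_q M_q log M_q` is minus the entropy of the weights -/
theorem quot_sum (T : Setoid κ) (g : ℝ → ℝ) :
    ∑ q : Quotient T, ((∑ c, (if Quotient.mk T c = q then m c else 0) : ℕ) : ℝ) *
      g ((∑ c, (if Quotient.mk T c = q then m c else 0) : ℕ) : ℝ)
      = ∑ c, (m c : ℝ) * g (mass (fun c => (m c : ℝ)) T c) := by
  have h1 : ∀ c, mass (fun c => (m c : ℝ)) T c
      = ((∑ c', (if Quotient.mk T c' = Quotient.mk T c then m c' else 0) : ℕ) : ℝ) := by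
    intro c
    unfold mass
    push_cast
    refine Finset.sum_congr rfl (fun c' _ => ?_)
    have : T c' c ↔ Quotient.mk T c' = Quotient.mk T c := ⟨fun h => Quotient.sound h, fun h => Quotient.exact h⟩
    simp only [this]
  have h2 : ∀ q : Quotient T, ((∑ c, (if Quotient.mk T c = q then m c else 0) : ℕ) : ℝ) *
      g ((∑ c, (if Quotient.mk T c = q then m c else 0) : ℕ) : ℝ)
      = ∑ c, (if Quotient.mk T c = q then (m c : ℝ) * g (mass (fun c => (m c : ℝ)) T c) else 0) := by
    intro q
    conv_lhs => rw [Nat.cast_sum, Finset.sum_mul]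
    refine Finset.sum_congr rfl (fun c _ => ?_)
    split_ifs with h
    · rw [h1, h, Nat.cast_sum]
    · simp
  rw [Finset.sum_congr rfl (fun q _ => h2 q), Finset.sum_comm]
  refine Finset.sum_congr rfl (fun c _ => ?_)
  rw [Finset.sum_ite_eq]
  simp

theorem DL_limit (T : Setoid κ) :
    Tendsto (fun L : ℕ => Real.log (DL m L T) / L - (∑ c, (m c : ℝ)) * (Real.log L - 1)) atTop
      (𝓝 (-ent (fun c => (m c : ℝ)) T)) := by
  have h1 : ∀ L : ℕ, Real.log (DL m L T) / L - (∑ c, (m c : ℝ)) * (Real.log L - 1)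
      = ∑ q : Quotient T, (Real.log ((L * ∑ c, (if Quotient.mk T c = q then m c else 0)).factorial : ℝ) / L
        - ((∑ c, (if Quotient.mk T c = q then m c else 0) : ℕ) : ℝ) * (Real.log L - 1)) := by
    intro L
    unfold DL
    rw [Real.log_prod (fun q _ => by exact_mod_cast (Nat.factorial_pos _).ne'), Finset.sum_div,
      Finset.sum_sub_distrib, ← Finset.sum_mul]
    congr 2
    have := quot_sum m T (fun _ => 1)
    simp only [mul_one] at this
    rw [this]
  have h2 : -ent (fun c => (m c : ℝ)) T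
      = ∑ q : Quotient T, ((∑ c, (if Quotient.mk T c = q then m c else 0) : ℕ) : ℝ) *
      Real.log ((∑ c, (if Quotient.mk T c = q then m c else 0) : ℕ) : ℝ) := by
    rw [quot_sum m T Real.log]
    unfold ent
    ring
  simp only [h1]
  rw [h2]
  exact tendsto_finsetSum _ (fun q _ => fact_limit _)

theorem lin_limit (c : Fin 10 → ℝ) (hc : ∑ s, c s = 0) :
    Tendsto (fun L : ℕ => lin c (fun i => Real.log (Y (fun x => EP m L (F x)) i)) / L) atTop
      (𝓝 (∑ s, c s * ent (fun c => (m c : ℝ)) (ES F s))) := by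
  have h1 : ∀ L : ℕ, lin c (fun i => Real.log (Y (fun x => EP m L (F x)) i)) / L
      = ∑ s, (-c s) * (Real.log (DL m L (ES F s)) / L - (∑ c, (m c : ℝ)) * (Real.log L - 1)) := by
    intro L
    rw [lin_apply]
    simp only [hL_perm]
    simp only [mul_sub, Finset.sum_sub_distrib, ← Finset.sum_mul]
    rw [hc, Finset.sum_neg_distrib, hc]
    simp only [zero_mul, zero_sub, neg_zero, sub_zero, neg_mul, Finset.sum_neg_distrib]
    rw [neg_div, Finset.sum_div]
    congr 1
    refine Finset.sum_congr rfl (fun s _ => by ring)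
  simp only [h1]
  have h2 : ∑ s, c s * ent (fun c => (m c : ℝ)) (ES F s)
      = ∑ s, (-c s) * (-ent (fun c => (m c : ℝ)) (ES F s)) :=
    Finset.sum_congr rfl (fun s _ => by ring)
  rw [h2]
  exact tendsto_finsetSum _ (fun s _ => (DL_limit m (ES F s)).const_mul _)

theorem sum_cP : ∑ s, cP s = 0 := by
  simp [cP, Fin.sum_univ_succ]

theorem sum_cT : ∑ s, cT s = 0 := by
  simp [cT, Fin.sum_univ_succ]
  norm_num

/-- if the weighted system violates the inequality, so does some permutation system -/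
theorem exists_perm (C : ℝ)
    (h : ingl (fun c => (m c : ℝ)) (F 0) (F 1) (F 2) (F 3)
      + C * (cmi (fun c => (m c : ℝ)) (F 0) (F 2) (F 1) + cmi (fun c => (m c : ℝ)) (F 1) (F 2) (F 0)) < 0) :
    ∃ L : ℕ, lin cP (fun i => Real.log (Y (fun x => EP m L (F x)) i))
      + C * lin cT (fun i => Real.log (Y (fun x => EP m L (F x)) i)) < 0 := by
  have h1 := lin_limit m F cP sum_cP
  have h2 := lin_limit m F cT sum_cT
  rw [lin_ent_P] at h1
  rw [lin_ent_T] at h2
  have h3 := h1.add (h2.const_mul C)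
  have h4 := (h3.eventually (gt_mem_nhds h)).and (eventually_gt_atTop 0)
  obtain ⟨L, hL, hL0⟩ := h4.exists
  refine ⟨L, ?_⟩
  have hLr : (0:ℝ) < L := by exact_mod_cast hL0
  have h5 : lin cP (fun i => Real.log (Y (fun x => EP m L (F x)) i)) / L
      + C * (lin cT (fun i => Real.log (Y (fun x => EP m L (F x)) i)) / L)
      = (lin cP (fun i => Real.log (Y (fun x => EP m L (F x)) i))
      + C * lin cT (fun i => Real.log (Y (fun x => EP m L (F x)) i))) / L := by ring
  rw [h5] at hL
  by_contra hcon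
  push Not at hcon
  exact absurd hL (not_lt.mpr (div_nonneg hcon hLr.le))

/-- packaged form of `exists_perm` -/
theorem exists_system (C : ℝ)
    (h : ingl (fun c => (m c : ℝ)) (F 0) (F 1) (F 2) (F 3)
      + C * (cmi (fun c => (m c : ℝ)) (F 0) (F 2) (F 1) + cmi (fun c => (m c : ℝ)) (F 1) (F 2) (F 0)) < 0) :
    ∃ (R : Type) (_ : Fintype R) (_ : Nonempty R) (E : Fin 4 → Setoid R),
      JL (fun i => Real.log (Y E i)) = 0 ∧
      lin cP (fun i => Real.log (Y E i)) + C * lin cT (fun i => Real.log (Y E i)) < 0 := by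
  obtain ⟨L, hL⟩ := exists_perm m F C h
  exact ⟨Equiv.Perm (OmL m L), inferInstance, inferInstance, fun x => EP m L (F x),
    JL_perm m L F, hL⟩

end

end TropProf
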