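import Pool.Agent.TropProf.Glue

/-!
A rigid graph on eight vertices, the twelve glued graphs, and the target graph of a system of
partitions.
-/

open Finset

namespace TropProf

/-- rows of the adjacency matrix of the rigid graph, as bit masks -/
def row8 : Fin 8 → ℕ := ![150, 29, 11, 230, 99, 216, 56, 41]

/-- adjacency of the rigid graph -/
def ad8 (u v : Fin 8) : Bool := (row8 u).testBit v.val

/-- a rigid graph on eight vertices (15 edges) -/
def H8 : SimpleGraph (Fin 8) where
  Adj u v := ad8 u v = true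
  symm := ⟨by decide⟩
  loopless := ⟨by decide⟩

set_option maxRecDepth 100000 in
set_option synthInstance.maxSize 2000 in
set_option synthInstance.maxHeartbeats 400000 in
theorem rigid_aux : ∀ x0 x1 : Fin 8, ad8 x0 x1 = true → ∀ x2, ad8 x0 x2 = true → ad8 x1 x2 = true →
    ∀ x3, ad8 x1 x3 = true → ad8 x2 x3 = true →
    ∀ x4, ad8 x0 x4 = true → ad8 x1 x4 = true →
    ∀ x5, ad8 x3 x5 = true → ad8 x4 x5 = true →
    ∀ x6, ad8 x3 x6 = true → ad8 x4 x6 = true → ad8 x5 x6 = true →
    ∀ x7, ad8 x0 x7 = true → ad8 x3 x7 = true → ad8 x5 x7 = true →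
    (x0 = 0 ∧ x1 = 1 ∧ x2 = 2 ∧ x3 = 3 ∧ x4 = 4 ∧ x5 = 5 ∧ x6 = 6 ∧ x7 = 7) := by
  decide

theorem rigid (f : Fin 8 → Fin 8) (hf : ∀ u v, ad8 u v = true → ad8 (f u) (f v) = true) (v : Fin 8) :
    f v = v := by
  have h := rigid_aux (f 0) (f 1) (hf _ _ (by decide)) (f 2) (hf _ _ (by decide))
    (hf _ _ (by decide)) (f 3) (hf _ _ (by decide)) (hf _ _ (by decide)) (f 4)
    (hf _ _ (by decide)) (hf _ _ (by decide)) (f 5) (hf _ _ (by decide)) (hf _ _ (by decide))
    (f 6) (hf _ _ (by decide)) (hf _ _ (by decide)) (hf _ _ (by decide)) (f 7)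
    (hf _ _ (by decide)) (hf _ _ (by decide)) (hf _ _ (by decide))
  obtain ⟨h0, h1, h2, h3, h4, h5, h6, h7⟩ := h
  fin_cases v
  · exact h0
  · exact h1
  · exact h2
  · exact h3
  · exact h4
  · exact h5
  · exact h6
  · exact h7

open scoped Classical

theorem H8_connected : H8.Connected := by
  have h3 : ∀ v : Fin 8, H8.Reachable 3 v := by
    have e1 : H8.Adj 3 1 := by show ad8 3 1 = true; decide
    have e2 : H8.Adj 3 2 := by show ad8 3 2 = true; decide
    have e5 : H8.Adj 3 5 := by show ad8 3 5 = true; decide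
    have e6 : H8.Adj 3 6 := by show ad8 3 6 = true; decide
    have e7 : H8.Adj 3 7 := by show ad8 3 7 = true; decide
    have e0 : H8.Adj 1 0 := by show ad8 1 0 = true; decide
    have e4 : H8.Adj 1 4 := by show ad8 1 4 = true; decide
    intro v
    fin_cases v
    · exact e1.reachable.trans e0.reachable
    · exact e1.reachable
    · exact e2.reachable
    · exact SimpleGraph.Reachable.refl _
    · exact e1.reachable.trans e4.reachable
    · exact e5.reachable
    · exact e6.reachable
    · exact e7.reachable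
  exact ⟨fun x y => (h3 x).symm.trans (h3 y)⟩

/-- the four special vertices -/
def sp : Fin 4 → Fin 8 := ![1, 2, 5, 6]

theorem sp_inj : Function.Injective sp := by decide

/-- the glueing sets -/
noncomputable def gs (i : Fin 12) (j : Fin (nc i)) : Finset (Fin 8) := (Sset (st i j)).image sp

/-- the twelve graphs -/
noncomputable def CG (i : Fin 12) : SimpleGraph (GV (Fin 8) (gs i)) := glue (gs i) H8

theorem Sset_nonempty (s : Fin 10) : (Sset s).Nonempty := by
  fin_cases s <;> simp [Sset]

theorem CG_connected (i : Fin 12) : (CG i).Connected :=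
  glue_connected _ _ H8_connected (fun _ => (Sset_nonempty _).image _)

theorem inf_rel {R : Type} (T : Finset (Fin 4)) (E : Fin 4 → Setoid R) (r r' : R) :
    (T.inf E) r r' ↔ ∀ x ∈ T, E x r r' := by
  induction T using Finset.induction_on with
  | empty =>
    rw [Finset.inf_empty]
    exact ⟨fun _ x hx => absurd hx (Finset.notMem_empty x), fun _ => trivial⟩
  | insert a T _ ih =>
    rw [Finset.inf_insert]
    constructor
    · intro h x hx
      rcases Finset.mem_insert.mp hx with rfl | hx
      · exact h.1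
      · exact ih.mp h.2 x hx
    · intro h
      exact ⟨h a (Finset.mem_insert_self _ _), ih.mpr (fun x hx => h x (Finset.mem_insert_of_mem hx))⟩

theorem dg_card {R : Type} [Fintype R] (E : Setoid R) (r : R) :
    dg E r = (Nat.card {r' : R // E r' r} : ℝ) := by
  unfold dg mass
  rw [Finset.sum_boole, Nat.card_eq_fintype_card, Fintype.card_subtype]

/-- the partitions of the set of homomorphisms `H8 → G` -/
def EG {W : Type} (G : SimpleGraph W) (x : Fin 4) : Setoid (H8 →g G) :=
  Setoid.ker (fun φ : (H8 →g G) => φ (sp x))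

theorem card_CG {W : Type} [Finite W] (G : SimpleGraph W) (i : Fin 12) :
    (Nat.card (CG i →g G) : ℝ) = Y (EG G) i := by
  unfold CG
  rw [card_glue]
  unfold Y
  push_cast
  refine Finset.sum_congr rfl (fun φ _ => Finset.prod_congr rfl (fun j _ => ?_))
  rw [dg_card]
  congr 1
  refine Nat.card_congr (Equiv.subtypeEquivRight (fun ψ => ?_))
  unfold ES gs
  rw [inf_rel]
  constructor
  · intro h x hx
    exact h (sp x) (Finset.mem_image_of_mem _ hx)
  · intro h v hv
    obtain ⟨x, hx, rfl⟩ := Finset.mem_image.mp hv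
    exact h x hx

/-- transport along an equivalence -/
theorem Y_congr {R R' : Type} [Fintype R] [Fintype R'] (e : R ≃ R') (E : Fin 4 → Setoid R)
    (E' : Fin 4 → Setoid R') (h : ∀ x r r', E x r r' ↔ E' x (e r) (e r')) (i : Fin 12) :
    Y E i = Y E' i := by
  unfold Y
  refine Fintype.sum_equiv e _ _ (fun r => Finset.prod_congr rfl (fun j _ => ?_))
  unfold dg mass
  refine Fintype.sum_equiv e _ _ (fun r' => ?_)
  have : ES E (st i j) r' r ↔ ES E' (st i j) (e r') (e r) := by
    unfold ES
    rw [inf_rel, inf_rel]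
    exact forall_congr' (fun x => forall_congr' (fun _ => h x r' r))
  simp only [this]

section relgraph
variable {R : Type} (E : Fin 4 → Setoid R)

/-- partition attached to each of the eight vertices -/
def EV : Fin 8 → Setoid R := ![⊤, E 0, E 1, ⊥, ⊤, E 2, E 3, ⊤]

/-- class of `r` in the partition of `v` -/
def cl (v : Fin 8) (r : R) : Set R := {r' | EV E v r' r}

theorem cl_eq_iff (v : Fin 8) (r r' : R) : cl E v r = cl E v r' ↔ EV E v r r' := by
  constructor
  · intro h
    have : r ∈ cl E v r := (EV E v).refl r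
    rw [h] at this
    exact this
  · intro h
    ext x
    exact ⟨fun hx => (EV E v).trans hx h, fun hx => (EV E v).trans hx ((EV E v).symm h)⟩

/-- the target graph of a system of partitions -/
def RG : SimpleGraph (Fin 8 × Set R) where
  Adj a b := ad8 a.1 b.1 = true ∧ ∃ r, a.2 = cl E a.1 r ∧ b.2 = cl E b.1 r
  symm := ⟨by
    rintro a b ⟨h, r, h1, h2⟩
    exact ⟨H8.symm.symm _ _ h, r, h2, h1⟩⟩
  loopless := ⟨by
    rintro a ⟨h, -⟩
    exact (H8.loopless.irrefl _ h)⟩

/-- the homomorphism given by an element -/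
def homOf (r : R) : H8 →g RG E :=
  ⟨fun v => (v, cl E v r), fun h => ⟨h, r, rfl, rfl⟩⟩

theorem homOf_surj (φ : H8 →g RG E) : ∃ r, φ = homOf E r := by
  have hfst : ∀ v, (φ v).1 = v := rigid (fun v => (φ v).1) (fun u v h => (φ.map_rel (a := u) (b := v) h).1)
  have adj : ∀ u v, ad8 u v = true → ∃ r, (φ u).2 = cl E u r ∧ (φ v).2 = cl E v r := by
    intro u v h
    obtain ⟨-, r, h1, h2⟩ := φ.map_rel (a := u) (b := v) h
    rw [hfst] at h1 h2
    exact ⟨r, h1, h2⟩
  obtain ⟨r, hr3, hr1⟩ := adj 3 1 (by decide)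
  have hbot : ∀ r', cl E 3 r = cl E 3 r' → r = r' := by
    intro r' h
    rw [cl_eq_iff] at h
    exact h
  have hn : ∀ v, ad8 3 v = true → (φ v).2 = cl E v r := by
    intro v hv
    obtain ⟨r', h1, h2⟩ := adj 3 v hv
    rw [hr3] at h1
    rw [h2, hbot r' h1]
  have htop : ∀ v r', EV E v = ⊤ → cl E v r' = cl E v r := by
    intro v r' h
    rw [cl_eq_iff, h]
    trivial
  refine ⟨r, ?_⟩
  apply RelHom.ext
  intro v
  refine Prod.ext (hfst v) ?_
  · show (φ v).2 = cl E v r
    fin_cases v
    · obtain ⟨r', h1, -⟩ := adj 0 1 (by decide)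
      exact h1.trans (htop 0 r' rfl)
    · exact hn 1 (by decide)
    · exact hn 2 (by decide)
    · exact hr3
    · obtain ⟨r', h1, -⟩ := adj 4 1 (by decide)
      exact h1.trans (htop 4 r' rfl)
    · exact hn 5 (by decide)
    · exact hn 6 (by decide)
    · exact hn 7 (by decide)

theorem homOf_inj : Function.Injective (homOf E) := by
  intro r r' h
  have h3 := congrArg (fun φ : H8 →g RG E => (φ 3).2) h
  have : cl E 3 r = cl E 3 r' := h3
  rw [cl_eq_iff] at this
  exact this

noncomputable def homEquiv : R ≃ (H8 →g RG E) :=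
  Equiv.ofBijective (homOf E) ⟨homOf_inj E, fun φ => (homOf_surj E φ).imp fun _ h => h.symm⟩

theorem Y_RG [Fintype R] (i : Fin 12) : Y (EG (RG E)) i = Y E i := by
  symm
  refine Y_congr (homEquiv E) E (EG (RG E)) (fun x r r' => ?_) i
  have h1 : (EG (RG E)) x (homEquiv E r) (homEquiv E r') ↔
      ((sp x, cl E (sp x) r) : Fin 8 × Set R) = (sp x, cl E (sp x) r') := Iff.rfl
  rw [h1, Prod.mk_right_inj, cl_eq_iff]
  fin_cases x <;> rfl

end relgraph

end TropProf
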