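import Pool.Agent.TropProf.Gibbs

/-!
The ten sets of variables, the twelve coordinates and the linear functionals used in the proof.
-/

open scoped Classical
open Finset

namespace TropProf

/-- the ten subsets of the four variables `A = 0, B = 1, C = 2, D = 3` -/
def Sset : Fin 10 → Finset (Fin 4) :=
  ![{0}, {1}, {0, 1}, {0, 2}, {1, 2}, {0, 3}, {1, 3}, {2, 3}, {0, 1, 2}, {0, 1, 3}]

/-- number of glued copies for the `i`-th graph -/
def nc (i : Fin 12) : ℕ := if i = 0 then 0 else if i = 1 then 10 else 48 + i.val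

/-- along which of the ten sets the `j`-th copy is glued -/
def st (i : Fin 12) (j : ℕ) : Fin 10 := if i = 1 then Fin.ofNat 10 j else Fin.ofNat 10 (i.val - 2)

/-- the coordinate which belongs to the `s`-th set -/
def pw (s : Fin 10) : Fin 12 := ⟨s.val + 2, by omega⟩

/-- the exponents -/
def KK (s : Fin 10) : ℕ := 50 + s.val

theorem KK_pos (s : Fin 10) : 0 < KK s := by unfold KK; omega

theorem lam_pos : 0 < 1 - ∑ s, 1 / (KK s : ℝ) := by
  simp only [Fin.sum_univ_succ, KK]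
  norm_num

/-- the partition given by the `s`-th set of variables -/
noncomputable def ES {R : Type} (E : Fin 4 → Setoid R) (s : Fin 10) : Setoid R := (Sset s).inf E

/-- the counting numbers of a system of four partitions -/
noncomputable def Y {R : Type} [Fintype R] (E : Fin 4 → Setoid R) (i : Fin 12) : ℝ :=
  ∑ r, ∏ j : Fin (nc i), dg (ES E (st i j)) r

theorem Y_zero {R : Type} [Fintype R] (E : Fin 4 → Setoid R) : Real.log (Y E 0) = yB R := by
  unfold Y yB
  have : ∀ r : R, ∏ j : Fin (nc 0), dg (ES E (st 0 j)) r = 1 := by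
    intro r
    have h : nc 0 = 0 := rfl
    rw [Finset.prod_eq_one]
    intro j
    exact absurd (lt_of_lt_of_eq j.isLt h) (Nat.not_lt_zero _)
  simp only [this]

theorem Y_one {R : Type} [Fintype R] (E : Fin 4 → Setoid R) : Real.log (Y E 1) = yZ (ES E) := by
  unfold Y yZ wt
  congr 1

theorem Y_pw {R : Type} [Fintype R] (E : Fin 4 → Setoid R) (s : Fin 10) :
    Real.log (Y E (pw s)) = yS (ES E s) (KK s) := by
  unfold Y yS
  congr 1
  refine Finset.sum_congr rfl (fun r _ => ?_)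
  have h1 : ∀ j, st (pw s) j = s := by
    intro j
    unfold st pw
    have : ¬ ((⟨s.val + 2, by omega⟩ : Fin 12) = 1) := by
      intro h
      have := congrArg Fin.val h
      simp at this
    rw [if_neg this]
    simp
  simp only [h1, Finset.prod_const, Finset.card_univ, Fintype.card_fin]
  congr 1
  unfold nc pw KK
  have : ¬ ((⟨s.val + 2, by omega⟩ : Fin 12) = 1) := by
    intro h
    have := congrArg Fin.val h
    simp at this
  have h0 : ¬ ((⟨s.val + 2, by omega⟩ : Fin 12) = 0) := by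
    intro h
    have := congrArg Fin.val h
    simp at this
  rw [if_neg h0, if_neg this]
  simp
  omega

/-- the `i`-th coordinate -/
def prj (i : Fin 12) : (Fin 12 → ℝ) →ₗ[ℝ] ℝ := LinearMap.proj i

@[simp] theorem prj_apply (i : Fin 12) (y : Fin 12 → ℝ) : prj i y = y i := rfl

/-- `s`-th approximate entropy, a linear functional of the twelve coordinates -/
noncomputable def hL (s : Fin 10) : (Fin 12 → ℝ) →ₗ[ℝ] ℝ :=
  prj 0 - (1 / (KK s : ℝ)) • (prj (pw s) - prj 0)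

theorem hL_apply (s : Fin 10) (y : Fin 12 → ℝ) : hL s y = y 0 - (y (pw s) - y 0) / KK s := by
  simp [hL]
  ring

/-- Jensen gap functional -/
noncomputable def JL : (Fin 12 → ℝ) →ₗ[ℝ] ℝ :=
  (1 - ∑ s, 1 / (KK s : ℝ)) • prj 0 + ∑ s, (1 / (KK s : ℝ)) • prj (pw s) - prj 1

theorem JL_apply (y : Fin 12 → ℝ) :
    JL y = (1 - ∑ s, 1 / (KK s : ℝ)) * y 0 + ∑ s, y (pw s) / KK s - y 1 := by
  simp only [JL, LinearMap.sub_apply, LinearMap.add_apply, LinearMap.smul_apply, prj_apply,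
    LinearMap.sum_apply, smul_eq_mul]
  congr 2
  refine Finset.sum_congr rfl (fun s _ => by ring)

def cP : Fin 10 → ℝ := ![-1, -1, 1, 1, 1, 1, 1, -1, -1, -1]
def cT : Fin 10 → ℝ := ![-1, -1, 2, 1, 1, 0, 0, 0, -2, 0]
def cQ : Fin 10 → ℝ := ![1, 1, -1, 0, 0, 0, 0, 0, 0, 0]

noncomputable def lin (c : Fin 10 → ℝ) : (Fin 12 → ℝ) →ₗ[ℝ] ℝ := ∑ s, c s • hL s

theorem lin_apply (c : Fin 10 → ℝ) (y : Fin 12 → ℝ) : lin c y = ∑ s, c s * hL s y := by
  simp [lin]

/-- the constant of the approximation -/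
noncomputable def C0 : ℝ := 2 / (1 - ∑ s, 1 / (KK s : ℝ)) + 1

theorem C0_nonneg : 0 ≤ C0 := by
  unfold C0
  have := lam_pos
  positivity

theorem ES_vals {R : Type} (E : Fin 4 → Setoid R) :
    ES E 0 = E 0 ∧ ES E 1 = E 1 ∧ ES E 2 = E 0 ⊓ E 1 ∧ ES E 3 = E 0 ⊓ E 2 ∧ ES E 4 = E 1 ⊓ E 2 ∧
    ES E 5 = E 0 ⊓ E 3 ∧ ES E 6 = E 1 ⊓ E 3 ∧ ES E 7 = E 2 ⊓ E 3 ∧ ES E 8 = E 0 ⊓ E 1 ⊓ E 2 ∧
    ES E 9 = E 0 ⊓ E 1 ⊓ E 3 := by
  unfold ES Sset
  refine ⟨?_, ?_, ?_, ?_, ?_, ?_, ?_, ?_, ?_, ?_⟩ <;> simp [inf_assoc]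

theorem lin_ent_P {R : Type} [Fintype R] (p : R → ℝ) (E : Fin 4 → Setoid R) :
    ∑ s, cP s * ent p (ES E s) = ingl p (E 0) (E 1) (E 2) (E 3) := by
  obtain ⟨h0, h1, h2, h3, h4, h5, h6, h7, h8, h9⟩ := ES_vals E
  unfold ingl cP
  simp only [Fin.sum_univ_succ, Fin.succ_zero_eq_one, Fin.succ_one_eq_two, Finset.univ_unique,
    Fin.default_eq_zero, Finset.sum_singleton]
  simp only [Matrix.cons_val_zero, Matrix.cons_val_succ]
  change (-1) * ent p (ES E 0) + ((-1) * ent p (ES E 1) + (1 * ent p (ES E 2) + (1 * ent p (ES E 3)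
    + (1 * ent p (ES E 4) + (1 * ent p (ES E 5) + (1 * ent p (ES E 6) + (-1 * ent p (ES E 7)
    + (-1 * ent p (ES E 8) + -1 * ent p (ES E 9))))))))) = _
  rw [h0, h1, h2, h3, h4, h5, h6, h7, h8, h9]
  ring

theorem lin_ent_T {R : Type} [Fintype R] (p : R → ℝ) (E : Fin 4 → Setoid R) :
    ∑ s, cT s * ent p (ES E s) = cmi p (E 0) (E 2) (E 1) + cmi p (E 1) (E 2) (E 0) := by
  obtain ⟨h0, h1, h2, h3, h4, h5, h6, h7, h8, h9⟩ := ES_vals E
  unfold cmi cT
  simp only [Fin.sum_univ_succ, Fin.succ_zero_eq_one, Fin.succ_one_eq_two, Finset.univ_unique,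
    Fin.default_eq_zero, Finset.sum_singleton]
  simp only [Matrix.cons_val_zero, Matrix.cons_val_succ]
  change (-1) * ent p (ES E 0) + ((-1) * ent p (ES E 1) + (2 * ent p (ES E 2) + (1 * ent p (ES E 3)
    + (1 * ent p (ES E 4) + (0 * ent p (ES E 5) + (0 * ent p (ES E 6) + (0 * ent p (ES E 7)
    + (-2 * ent p (ES E 8) + 0 * ent p (ES E 9))))))))) = _
  rw [h0, h1, h2, h3, h4, h5, h6, h7, h8, h9]
  rw [lat2 (E 0) (E 1) (E 2), lat3 (E 0) (E 1) (E 2), inf_comm (E 2) (E 1), inf_comm (E 1) (E 0),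
    inf_comm (E 2) (E 0)]
  ring

theorem lin_ent_Q {R : Type} [Fintype R] (p : R → ℝ) (E : Fin 4 → Setoid R) :
    ∑ s, cQ s * ent p (ES E s) = mi p (E 0) (E 1) := by
  obtain ⟨h0, h1, h2, h3, h4, h5, h6, h7, h8, h9⟩ := ES_vals E
  unfold mi cQ
  simp only [Fin.sum_univ_succ, Fin.succ_zero_eq_one, Fin.succ_one_eq_two, Finset.univ_unique,
    Fin.default_eq_zero, Finset.sum_singleton]
  simp only [Matrix.cons_val_zero, Matrix.cons_val_succ]
  change (1) * ent p (ES E 0) + ((1) * ent p (ES E 1) + (-1 * ent p (ES E 2) + (0 * ent p (ES E 3)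
    + (0 * ent p (ES E 4) + (0 * ent p (ES E 5) + (0 * ent p (ES E 6) + (0 * ent p (ES E 7)
    + (0 * ent p (ES E 8) + 0 * ent p (ES E 9))))))))) = _
  rw [h0, h1, h2]
  ring

/-- comparison of a linear functional of the coordinates with the entropies -/
theorem lin_close {R : Type} [Fintype R] (E : Fin 4 → Setoid R) (p : R → ℝ) (y : Fin 12 → ℝ) (g : ℝ)
    (h : ∀ s, |ent p (ES E s) - hL s y| ≤ g) (c : Fin 10 → ℝ) :
    |∑ s, c s * ent p (ES E s) - lin c y| ≤ (∑ s, |c s|) * g := by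
  rw [lin_apply, ← Finset.sum_sub_distrib, Finset.sum_mul]
  refine (Finset.abs_sum_le_sum_abs _ _).trans (Finset.sum_le_sum (fun s _ => ?_))
  rw [← mul_sub, abs_mul]
  exact mul_le_mul_of_nonneg_left (h s) (abs_nonneg _)

/-- the valid inequalities -/
theorem valid {R W : Type} [Fintype R] [Nonempty R] (E : Fin 4 → Setoid R) (a b : R → W)
    (ha : E 0 = Setoid.ker a) (hb : E 1 = Setoid.ker b) :
    0 ≤ JL (fun i => Real.log (Y E i)) ∧
    0 ≤ lin cT (fun i => Real.log (Y E i)) + (∑ s, |cT s|) * C0 * JL (fun i => Real.log (Y E i)) ∧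
    ∀ k : ℕ, 0 ≤ k * lin cP (fun i => Real.log (Y E i)) + lin cQ (fun i => Real.log (Y E i))
      + (k * (k - 1) / 2) * lin cT (fun i => Real.log (Y E i))
      + (k * (∑ s, |cP s|) + (∑ s, |cQ s|) + |(k * (k - 1) / 2 : ℝ)| * (∑ s, |cT s|)) * C0 *
        JL (fun i => Real.log (Y E i)) := by
  set y : Fin 12 → ℝ := fun i => Real.log (Y E i) with hy
  have hJ : JL y = gapJ (ES E) KK := by
    rw [JL_apply]
    unfold gapJ
    simp only [hy]
    rw [Y_zero, Y_one]
    congr 2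
    refine Finset.sum_congr rfl (fun s _ => ?_)
    rw [Y_pw]
  have hh : ∀ s, hL s y = hhat (ES E) KK s := by
    intro s
    rw [hL_apply]
    unfold hhat
    simp only [hy]
    rw [Y_zero, Y_pw]
  obtain ⟨hJ0, p, hp, hent⟩ := entropy_approx (ES E) KK KK_pos lam_pos
  have hclose : ∀ s, |ent p (ES E s) - hL s y| ≤ C0 * JL y := by
    intro s
    rw [hh, hJ]
    exact hent s
  have hP := lin_close E p y _ hclose cP
  have hT := lin_close E p y _ hclose cT
  have hQ := lin_close E p y _ hclose cQ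
  rw [lin_ent_P] at hP
  rw [lin_ent_T] at hT
  rw [lin_ent_Q] at hQ
  refine ⟨by rw [hJ]; exact hJ0, ?_, ?_⟩
  · have h1 := cmi_nonneg hp (E 0) (E 2) (E 1)
    have h2 := cmi_nonneg hp (E 1) (E 2) (E 0)
    have h3 := (abs_le.mp hT).2
    nlinarith [h1, h2, h3]
  · intro k
    have hm := matus hp a b (E 2) (E 3) k
    rw [← ha, ← hb] at hm
    have hP2 := (abs_le.mp hP).2
    have hQ2 := (abs_le.mp hQ).2
    have hk : (0:ℝ) ≤ k := Nat.cast_nonneg k
    have hP3 := mul_le_mul_of_nonneg_left hP2 hk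
    -- the T term
    have hT3 : (k * (k - 1) / 2 : ℝ) * (cmi p (E 0) (E 2) (E 1) + cmi p (E 1) (E 2) (E 0) - lin cT y)
        ≤ |(k * (k - 1) / 2 : ℝ)| * ((∑ s, |cT s|) * (C0 * JL y)) := by
      refine (le_abs_self _).trans ?_
      rw [abs_mul]
      exact mul_le_mul_of_nonneg_left hT (abs_nonneg _)
    nlinarith [hm, hP3, hQ2, hT3]

end TropProf
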